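import Pool.Agent.H75.QG.Stmt
import Pool.Agent.H68.GP.Stmt

/-!
# Gap-SETH for constant-depth circuits with general gates: the definitions used in the statement

The circuits (`GCircuit`) are those of `Pool/Agent/H75/QG/Stmt.lean`; `KCNF`, `viol`, `Far` are in
`Pool/Agent/H68/GP/Stmt.lean`.
-/

namespace Pool.Agent.H68.GQ

open Pool.Agent.H75.QG

open Classical in
/-- The values (`0` or `1`) of all gates and all inputs. -/
noncomputable def vals {I : Type} {s M : ℕ} (R : Type) [Zero R] [One R] (C : GCircuit I s M)
    (y : I → Bool) : Fin s ⊕ I → R :=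
  Sum.elim (fun g => if C.Holds y g then 1 else 0) (fun i => if y i = true then 1 else 0)

open Classical in
/-- `1` if the circuit accepts, otherwise `0`. -/
noncomputable def acc {I : Type} {s M : ℕ} (C : GCircuit I s M) (y : I → Bool) : ℝ :=
  if C.Holds y C.out then 1 else 0

end Pool.Agent.H68.GQ
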