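import Pool.Agent.H75.QG.Final
import Pool.Agent.H68.GP.Tj
import Pool.Agent.H68.GQ.Stmt

/-!
# General gates: the bad event, union bound, first-large argument
-/

namespace Pool.Agent.H68.GQ

open Finset Pool.Agent.H68.AC Pool.Agent.H75.QG Pool.Agent.H68.GP

/-- The bad event for `P` and `g`: the children are shallow and some block path touches all of `P`. -/
def EBG {V : Type} [DecidableEq V] [Fintype V] {s d M : ℕ} (C : CktG V s d M) (w : ℕ) (P Q : Finset V)
    (R : Fin d → PA V) (g : Fin s) : Prop :=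
  (∀ c ∈ C.cht Q R g, c.2.depth ≤ w) ∧
    ∃ π, IsBPG M (C.cht Q R g) (rho Q R (C.lev g + 1)) π ∧ ∀ v ∈ P, v ∈ π.flatten.map Prod.fst

theorem bag {V : Type} [DecidableEq V] [Fintype V] {s d M : ℕ} (C : CktG V s d M) (w : ℕ)
    (P : Finset V) (g : Fin s) {p q : ℝ} (hp : 0 ≤ p) (hp1 : p ≤ 1) (hq : 0 ≤ q) (hq1 : q ≤ 1) :
    q ^ (d * P.card) * ∑ R : Fin d → PA V, Wt q p R * ind (EBG C w P P R g) ≤
      ∑ R : Fin d → PA V, Wt q p R * ind (EBG C w P ∅ R g) := by
  rw [Pool.Agent.H90.AC.IND V d q p P (fun R => ind (EBG C w P P R g)) ?_]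
  · refine Finset.sum_le_sum (fun R _ => mul_le_mul_of_nonneg_left ?_ (Wt_nonneg hq hq1 hp hp1 R))
    by_cases h : ∀ j, ∀ v ∈ P, R j v = none
    · rw [ind_true h, one_mul]
      obtain ⟨_, h1, _⟩ := Pool.Agent.H90.QG.invg V s d M C P R R
      obtain ⟨h2, h3⟩ := h1 h
      apply ind_mono
      unfold EBG
      rw [h2, h3]
      exact id
    · rw [ind_false h, zero_mul]; exact ind_nonneg _
  · intro R R' h
    obtain ⟨h1, _, _⟩ := Pool.Agent.H90.QG.invg V s d M C P R R'
    obtain ⟨h2, h3⟩ := h1 h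
    simp only [EBG, h2, h3]

theorem gG_empty {V : Type} [DecidableEq V] (M : ℕ) (μ : ℝ) (ψ : List (V × Bool)) :
    gG M μ ∅ ψ = μ ^ ψ.length := by
  unfold gG
  simp only [notMem_empty, if_false, List.map_const', List.prod_replicate]

theorem bbg {V : Type} [DecidableEq V] [Fintype V] {s d M : ℕ} (C : CktG V s d M) (w : ℕ)
    (F : Finset (Finset V)) (g : Fin s) {p q : ℝ} (hw : 1 ≤ w) (hp : 0 < p) (hp1 : p ≤ 1 / 2)
    (hq : 0 < q) (hq1 : q ≤ 1 / 2) (hwq : 64 * ((M : ℝ) + 1) * w * q ≤ p) :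
    ∑ P ∈ F, ∑ R : Fin d → PA V, Wt q p R * ind (EBG C w P ∅ R g) ≤ 3 / 2 := by
  rw [Finset.sum_comm]
  have h0 : ∀ R : Fin d → PA V, ∑ P ∈ F, Wt q p R * ind (EBG C w P ∅ R g) =
      Wt q p R * ∑ P ∈ F, ind (EBG C w P ∅ R g) := fun R => by rw [Finset.mul_sum]
  simp only [h0]
  refine Pool.Agent.H90.AC.FUB V d q p (fun R => ∑ P ∈ F, ind (EBG C w P ∅ R g))
    ⟨C.lev g, C.lev_lt g⟩ (3 / 2) hq.le (by linarith) hp.le (by linarith) ?_
  intro R
  -- the children do not depend on the round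
  have hc : ∀ Q, C.cht ∅ (Function.update R ⟨C.lev g, C.lev_lt g⟩ Q) g = C.cht ∅ R g := by
    intro Q
    obtain ⟨_, _, h3⟩ :=
      Pool.Agent.H90.QG.invg V s d M C ∅ (Function.update R ⟨C.lev g, C.lev_lt g⟩ Q) R
    refine h3 g (fun i hi => ?_)
    rw [Function.update_of_ne]
    intro h; rw [h] at hi; exact lt_irrefl _ hi
  by_cases hsh : ∀ c ∈ C.cht ∅ R g, c.2.depth ≤ w
  · refine le_trans (Finset.sum_le_sum (fun Q _ => mul_le_mul_of_nonneg_left ?_
      (wt_nonneg hq.le (by linarith) hp.le (by linarith) Q)))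
      (hSWG V M (C.cht ∅ R g) w ∅ (fd R (C.lev g)) p q (Fintype.card V) hw hsh hp hp1 hq hq1 hwq)
    have hr := rho_update ∅ R ⟨C.lev g, C.lev_lt g⟩ Q
    simp only at hr
    have h1 : ∀ P ∈ F, ind (EBG C w P ∅ (Function.update R ⟨C.lev g, C.lev_lt g⟩ Q) g) ≤
        ∑ π ∈ BPFG M (C.cht ∅ R g) (Fintype.card V) (mask ∅ (mrg (fd R (C.lev g)) Q)),
          (if P ⊆ (π.flatten.map Prod.fst).toFinset then (1 : ℝ) else 0) := by
      intro P _
      by_cases h : EBG C w P ∅ (Function.update R ⟨C.lev g, C.lev_lt g⟩ Q) g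
      · rw [ind_true h]
        obtain ⟨_, π, h2, h3⟩ := h
        rw [hc, hr] at h2
        obtain ⟨_, _, h4⟩ := bpng_t V M _ _ _ h2
        have h5 : P ⊆ (π.flatten.map Prod.fst).toFinset := fun v hv => List.mem_toFinset.2 (h3 v hv)
        have h6 := Finset.single_le_sum (f := fun π : List (List (V × Bool)) =>
          (if P ⊆ (π.flatten.map Prod.fst).toFinset then (1 : ℝ) else 0))
          (fun π _ => by split_ifs <;> norm_num) ((bpfm_t V M _ _ _ _).2 ⟨h2, h4⟩)
        simp only [h5, if_true] at h6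
        exact h6
      · rw [ind_false h]
        exact Finset.sum_nonneg (fun π _ => by split_ifs <;> norm_num)
    refine (Finset.sum_le_sum h1).trans ?_
    rw [Finset.sum_comm]
    refine Finset.sum_le_sum (fun π hπ => ?_)
    rw [gG_empty]
    rw [← Finset.sum_filter, Finset.sum_const, nsmul_eq_mul, mul_one]
    have h7 : (F.filter (fun P => P ⊆ (π.flatten.map Prod.fst).toFinset)).card ≤
        2 ^ π.flatten.length := by
      have h8 : (F.filter (fun P => P ⊆ (π.flatten.map Prod.fst).toFinset)) ⊆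
          (π.flatten.map Prod.fst).toFinset.powerset := by
        intro P hP
        exact Finset.mem_powerset.2 (Finset.mem_filter.1 hP).2
      refine (Finset.card_le_card h8).trans ?_
      rw [Finset.card_powerset]
      refine Nat.pow_le_pow_right (by norm_num) ((List.toFinset_card_le _).trans ?_)
      rw [List.length_map]
    exact_mod_cast h7
  · have h1 : ∀ Q : PA V, wt q p Q * ∑ P ∈ F, ind (EBG C w P ∅
        (Function.update R ⟨C.lev g, C.lev_lt g⟩ Q) g) = 0 := by
      intro Q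
      rw [Finset.sum_eq_zero, mul_zero]
      intro P _
      refine ind_false (fun h => hsh ?_)
      have := h.1
      rwa [hc] at this
    rw [Finset.sum_eq_zero (fun Q _ => h1 Q)]
    norm_num

section

variable {k r s d M : ℕ} {A G : Type} [DecidableEq A] [Fintype A] [DecidableEq G] [Fintype G]

theorem bllg (C : CktG (VL k r A G) s d M) (w : ℕ) (e : Fin k → Fin r → Fin k)
    (Λ : Finset (Fin k × G)) {p q : ℝ} (hw : 1 ≤ w) (hp : 0 < p) (hp1 : p ≤ 1 / 2) (hq : 0 < q)
    (hq1 : q ≤ 1 / 2) (hwq : 64 * ((M : ℝ) + 1) * w * q ≤ p) :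
    q ^ (d * Λ.card) * ∑ x : Fin k → A, ∑ R : Fin d → PA (VL k r A G),
      Wt q p R * ind (∃ g, EBG C w (KL e x Λ) (KL e x Λ) R g) ≤
    s * (3 / 2 * (Fintype.card A : ℝ) ^ (k - (VSL e Λ).card)) := by
  set F : Finset (VL k r A G) → ℝ := fun P =>
    ∑ g : Fin s, ∑ R : Fin d → PA (VL k r A G), Wt q p R * ind (EBG C w P ∅ R g) with hF
  have hF0 : ∀ P, 0 ≤ F P := fun P => Finset.sum_nonneg (fun g _ => Finset.sum_nonneg (fun R _ =>
    mul_nonneg (Wt_nonneg hq.le (by linarith) hp.le (by linarith) R) (ind_nonneg _)))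
  have h1 : q ^ (d * Λ.card) * ∑ x : Fin k → A, ∑ R : Fin d → PA (VL k r A G),
      Wt q p R * ind (∃ g, EBG C w (KL e x Λ) (KL e x Λ) R g) ≤ ∑ x : Fin k → A, F (KL e x Λ) := by
    rw [Finset.mul_sum]
    refine Finset.sum_le_sum (fun x _ => ?_)
    have h2 : ∑ R : Fin d → PA (VL k r A G), Wt q p R * ind (∃ g, EBG C w (KL e x Λ) (KL e x Λ) R g) ≤
        ∑ g : Fin s, ∑ R : Fin d → PA (VL k r A G),
          Wt q p R * ind (EBG C w (KL e x Λ) (KL e x Λ) R g) := by
      rw [Finset.sum_comm]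
      refine Finset.sum_le_sum (fun R _ => ?_)
      rw [← Finset.mul_sum]
      exact mul_le_mul_of_nonneg_left (ind_exists_le _)
        (Wt_nonneg hq.le (by linarith) hp.le (by linarith) R)
    refine (mul_le_mul_of_nonneg_left h2 (pow_nonneg hq.le _)).trans ?_
    rw [Finset.mul_sum]
    refine Finset.sum_le_sum (fun g _ => ?_)
    have := bag C w (KL e x Λ) g hp.le (by linarith) hq.le (by linarith)
    rwa [KL_card] at this
  refine h1.trans ((bcl e Λ F hF0).trans ?_)
  have h3 : ∑ P ∈ univ.image (fun x : Fin k → A => KL e x Λ), F P ≤ s * (3 / 2) := by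
    rw [hF, Finset.sum_comm]
    calc _ ≤ ∑ _g : Fin s, (3 / 2 : ℝ) := Finset.sum_le_sum (fun g _ =>
          bbg C w _ g hw hp hp1 hq hq1 hwq)
      _ = s * (3 / 2) := by simp
  calc _ ≤ (Fintype.card A : ℝ) ^ (k - (VSL e Λ).card) * (s * (3 / 2)) :=
        mul_le_mul_of_nonneg_left h3 (by positivity)
    _ = s * (3 / 2 * (Fintype.card A : ℝ) ^ (k - (VSL e Λ).card)) := by ring

/-- No block path touches all planted positions of a set of labelled constraints, at most `2 * h`
constraints covering more than `β` vertices. -/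
def GoodLG (C : CktG (VL k r A G) s d M) (e : Fin k → Fin r → Fin k) (x : Fin k → A)
    (R : Fin d → PA (VL k r A G)) (β h : ℕ) : Prop :=
  ∀ Λ : Finset (Fin k × G), β < (VSL e Λ).card → (Λ.image Prod.fst).card ≤ 2 * h → ∀ g π,
    IsBPG M (C.cht (KL e x Λ) R g) (rho (KL e x Λ) R (C.lev g + 1)) π →
    ∃ v ∈ KL e x Λ, v ∉ π.flatten.map Prod.fst

end

/-- The error term: `Q` labels. -/
noncomputable def HLG (k N Q s w β h d M : ℕ) (q : ℝ) : ℝ :=
  2 ^ (k * Q) * (s * (3 / 2 * (16 * ((M : ℝ) + 1)) ^ (k * Q) / 2 ^ (w + 1))) +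
    2 ^ (k * Q) * (s * (3 / 2 * (1 / q) ^ (d * (2 * h * Q)) / N ^ (β + 1)))

theorem mem_chtG {V : Type} [DecidableEq V] [Fintype V] {s d M : ℕ} (C : CktG V s d M)
    (P : Finset V) (R : Fin d → PA V) (g : Fin s) (c : Bool × DT V) :
    c ∈ C.cht P R g ↔ ∃ a ∈ C.ch g, c = (a.1, C.stree P R a.2) := by
  simp only [CktG.cht, List.mem_map]
  constructor
  · rintro ⟨a, h, rfl⟩; exact ⟨a, h, rfl⟩
  · rintro ⟨a, h, rfl⟩; exact ⟨a, h, rfl⟩

theorem ublg {k r s d M : ℕ} {A G : Type} [DecidableEq A] [Fintype A] [DecidableEq G] [Fintype G]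
    (C : CktG (VL k r A G) s d M) (w β h : ℕ) (e : Fin k → Fin r → Fin k) {p q : ℝ} (hw : 1 ≤ w)
    (hp : 0 < p) (hp2 : p ≤ 1 / 2) (hq : 0 < q) (hq2 : q ≤ 1 / 2)
    (h64 : 64 * ((M : ℝ) + 1) * w * q ≤ p) (hcA : 1 ≤ Fintype.card A) :
    ∑ x : Fin k → A, ∑ R : Fin d → PA (VL k r A G), Wt q p R * ind (¬ GoodLG C e x R β h) ≤
    (Fintype.card A : ℝ) ^ k * HLG k (Fintype.card A) (Fintype.card G) s w β h d M q := by
  have hp1 : p ≤ 1 := by linarith
  have hq1 : q ≤ 1 := by linarith
  set N := Fintype.card A with hN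
  set Q := Fintype.card G with hQ
  have hN1 : (1 : ℝ) ≤ N := by exact_mod_cast hcA
  set FF : Finset (Finset (Fin k × G)) :=
    univ.filter (fun Λ => β < (VSL e Λ).card ∧ (Λ.image Prod.fst).card ≤ 2 * h) with hFF
  have hcardΛ : ∀ Λ : Finset (Fin k × G), Λ.card ≤ k * Q := by
    intro Λ
    refine (card_le_univ Λ).trans ?_
    rw [Fintype.card_prod, Fintype.card_fin]
  -- pointwise
  have hpt : ∀ (x : Fin k → A) (R : Fin d → PA (VL k r A G)),
      ind (¬ GoodLG C e x R β h) ≤
        ∑ Λ : Finset (Fin k × G), ind (∃ g, w < (C.T (KL e x Λ) R g).depth) +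
        ∑ Λ ∈ FF, ind (∃ g, EBG C w (KL e x Λ) (KL e x Λ) R g) := by
    intro x R
    have h2 : 0 ≤ ∑ Λ : Finset (Fin k × G), ind (∃ g, w < (C.T (KL e x Λ) R g).depth) :=
      sum_nonneg fun _ _ => ind_nonneg _
    have h3 : 0 ≤ ∑ Λ ∈ FF, ind (∃ g, EBG C w (KL e x Λ) (KL e x Λ) R g) :=
      sum_nonneg fun _ _ => ind_nonneg _
    by_cases hall2 : GoodLG C e x R β h
    · rw [ind_false (not_not.2 hall2)]
      linarith
    rw [ind_true hall2]
    have hGB := hall2
    unfold GoodLG at hGB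
    push Not at hGB
    obtain ⟨Λ, hH1, hH2, g, π, hπ, hall⟩ := hGB
    by_cases hd : ∃ g, w < (C.T (KL e x Λ) R g).depth
    · have : ind (∃ g, w < (C.T (KL e x Λ) R g).depth) ≤
          ∑ Λ : Finset (Fin k × G), ind (∃ g, w < (C.T (KL e x Λ) R g).depth) :=
        single_le_sum (f := fun Λ => ind (∃ g, w < (C.T (KL e x Λ) R g).depth))
          (fun _ _ => ind_nonneg _) (mem_univ Λ)
      rw [ind_true hd] at this
      linarith
    · push Not at hd
      have hE : ∃ g, EBG C w (KL e x Λ) (KL e x Λ) R g := by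
        refine ⟨g, ?_, π, hπ, hall⟩
        intro c hc
        rw [mem_chtG] at hc
        obtain ⟨⟨b, a⟩, _, rfl⟩ := hc
        rcases a with i | g'
        · refine le_trans ?_ hw
          simp only [CktG.stree, Sum.elim_inl]
          cases i <;> simp [Inp.tree, DT.depth]
        · exact hd g'
      have hHF : Λ ∈ FF := by
        simp only [hFF, mem_filter, mem_univ, true_and]
        exact ⟨hH1, hH2⟩
      have : ind (∃ g, EBG C w (KL e x Λ) (KL e x Λ) R g) ≤
          ∑ Λ ∈ FF, ind (∃ g, EBG C w (KL e x Λ) (KL e x Λ) R g) :=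
        single_le_sum (f := fun Λ => ind (∃ g, EBG C w (KL e x Λ) (KL e x Λ) R g))
          (fun _ _ => ind_nonneg _) hHF
      rw [ind_true hE] at this
      linarith
  have hWn : ∀ R : Fin d → PA (VL k r A G), 0 ≤ Wt q p R := fun R =>
    Pool.Agent.H68.AC.Wt_nonneg hq.le hq1 hp.le hp1 R
  -- for one x
  have hx : ∀ x : Fin k → A, ∑ R : Fin d → PA (VL k r A G), Wt q p R *
      ind (¬ GoodLG C e x R β h) ≤
      2 ^ (k * Q) * (s * (3 / 2 * (16 * ((M : ℝ) + 1)) ^ (k * Q) / 2 ^ (w + 1))) +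
      ∑ Λ ∈ FF, ∑ R : Fin d → PA (VL k r A G), Wt q p R *
        ind (∃ g, EBG C w (KL e x Λ) (KL e x Λ) R g) := by
    intro x
    have h0 : ∑ R : Fin d → PA (VL k r A G), Wt q p R * ind (¬ GoodLG C e x R β h) ≤
        ∑ R : Fin d → PA (VL k r A G), Wt q p R *
        (∑ Λ : Finset (Fin k × G), ind (∃ g, w < (C.T (KL e x Λ) R g).depth) +
        ∑ Λ ∈ FF, ind (∃ g, EBG C w (KL e x Λ) (KL e x Λ) R g)) := by
      apply sum_le_sum; intro R _
      exact mul_le_mul_of_nonneg_left (hpt x R) (hWn R)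
    have h2 : ∑ R : Fin d → PA (VL k r A G), Wt q p R *
        (∑ Λ : Finset (Fin k × G), ind (∃ g, w < (C.T (KL e x Λ) R g).depth)) ≤
        2 ^ (k * Q) * (s * (3 / 2 * (16 * ((M : ℝ) + 1)) ^ (k * Q) / 2 ^ (w + 1))) := by
      simp_rw [mul_sum]
      rw [sum_comm]
      have : ∀ Λ ∈ (univ : Finset (Finset (Fin k × G))), ∑ R : Fin d → PA (VL k r A G), Wt q p R *
          ind (∃ g, w < (C.T (KL e x Λ) R g).depth) ≤
          s * (3 / 2 * (16 * ((M : ℝ) + 1)) ^ (k * Q) / 2 ^ (w + 1)) := by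
        intro Λ _
        refine (hAG (VL k r A G) s d M C w (KL e x Λ) p q hw hp hp2 hq hq2 h64).trans ?_
        have hc : (KL e x Λ).card ≤ k * Q := by rw [KL_card]; exact hcardΛ Λ
        have hM : (1 : ℝ) ≤ 16 * ((M : ℝ) + 1) := by
          have : (0 : ℝ) ≤ M := Nat.cast_nonneg M
          linarith
        have : (16 * ((M : ℝ) + 1)) ^ (KL e x Λ).card ≤ (16 * ((M : ℝ) + 1)) ^ (k * Q) :=
          pow_le_pow_right₀ hM hc
        gcongr
      refine (sum_le_sum this).trans (le_of_eq ?_)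
      rw [sum_const, nsmul_eq_mul, card_univ, Fintype.card_finset, Fintype.card_prod, Fintype.card_fin]
      push_cast
      ring
    refine h0.trans ?_
    simp only [mul_add, sum_add_distrib]
    have h3 : ∑ R : Fin d → PA (VL k r A G), Wt q p R *
        (∑ Λ ∈ FF, ind (∃ g, EBG C w (KL e x Λ) (KL e x Λ) R g)) =
        ∑ Λ ∈ FF, ∑ R : Fin d → PA (VL k r A G), Wt q p R *
          ind (∃ g, EBG C w (KL e x Λ) (KL e x Λ) R g) := by
      simp_rw [mul_sum]
      rw [sum_comm]
    rw [h3]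
    simp only [mul_add] at h2
    exact add_le_add h2 le_rfl
  -- the second sum
  have h3 : ∑ x : Fin k → A, ∑ Λ ∈ FF, ∑ R : Fin d → PA (VL k r A G), Wt q p R *
        ind (∃ g, EBG C w (KL e x Λ) (KL e x Λ) R g) ≤
      (N : ℝ) ^ k * (2 ^ (k * Q) * (s * (3 / 2 * (1 / q) ^ (d * (2 * h * Q)) / N ^ (β + 1)))) := by
    rw [sum_comm]
    have hH : ∀ Λ ∈ FF, ∑ x : Fin k → A, ∑ R : Fin d → PA (VL k r A G), Wt q p R *
        ind (∃ g, EBG C w (KL e x Λ) (KL e x Λ) R g) ≤
        (N : ℝ) ^ k * (s * (3 / 2 * (1 / q) ^ (d * (2 * h * Q)) / N ^ (β + 1))) := by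
      intro Λ hHF
      simp only [hFF, mem_filter, mem_univ, true_and] at hHF
      have hb := bllg C w e Λ hw hp hp2 hq hq2 h64
      have hqp : 0 < q ^ (d * Λ.card) := by positivity
      have h1 : ∑ x : Fin k → A, ∑ R : Fin d → PA (VL k r A G), Wt q p R *
          ind (∃ g, EBG C w (KL e x Λ) (KL e x Λ) R g) ≤
          (1 / q) ^ (d * Λ.card) * (s * (3 / 2 * (N : ℝ) ^ (k - (VSL e Λ).card))) := by
        rw [one_div, inv_pow]
        rw [inv_mul_eq_div, le_div_iff₀ hqp, mul_comm]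
        exact hb
      refine h1.trans ?_
      have hq1' : 1 ≤ 1 / q := by rw [le_div_iff₀ hq]; linarith
      have hΛ : Λ.card ≤ 2 * h * Q := by
        have h4 : Λ ⊆ (Λ.image Prod.fst) ×ˢ (univ : Finset G) := by
          intro c hc
          exact mem_product.2 ⟨mem_image_of_mem _ hc, mem_univ _⟩
        refine (card_le_card h4).trans ?_
        rw [card_product, card_univ]
        exact Nat.mul_le_mul_right _ hHF.2
      have h2 : (1 / q) ^ (d * Λ.card) ≤ (1 / q) ^ (d * (2 * h * Q)) :=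
        pow_le_pow_right₀ hq1' (Nat.mul_le_mul_left _ hΛ)
      have hVk : (VSL e Λ).card ≤ k := (card_le_univ _).trans (by simp)
      have h4 : (N : ℝ) ^ (k - (VSL e Λ).card) ≤ (N : ℝ) ^ k / N ^ (β + 1) := by
        rw [le_div_iff₀ (by positivity), ← pow_add]
        exact pow_le_pow_right₀ hN1 (by omega)
      calc (1 / q) ^ (d * Λ.card) * (s * (3 / 2 * (N : ℝ) ^ (k - (VSL e Λ).card)))
          ≤ (1 / q) ^ (d * (2 * h * Q)) * (s * (3 / 2 * ((N : ℝ) ^ k / N ^ (β + 1)))) := by gcongr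
        _ = _ := by ring
    refine (sum_le_sum hH).trans ?_
    rw [sum_const, nsmul_eq_mul]
    have hc : (FF.card : ℝ) ≤ 2 ^ (k * Q) := by
      have : FF.card ≤ 2 ^ (k * Q) := (card_le_univ _).trans (by
        rw [Fintype.card_finset, Fintype.card_prod, Fintype.card_fin])
      exact_mod_cast this
    have hpos : 0 ≤ (N : ℝ) ^ k * (s * (3 / 2 * (1 / q) ^ (d * (2 * h * Q)) / N ^ (β + 1))) := by
      positivity
    calc (FF.card : ℝ) * ((N : ℝ) ^ k * (s * (3 / 2 * (1 / q) ^ (d * (2 * h * Q)) / N ^ (β + 1))))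
        ≤ 2 ^ (k * Q) * ((N : ℝ) ^ k * (s * (3 / 2 * (1 / q) ^ (d * (2 * h * Q)) / N ^ (β + 1)))) :=
          mul_le_mul_of_nonneg_right hc hpos
      _ = _ := by ring
  -- sum over x
  have hsum := sum_le_sum (fun x (_ : x ∈ (univ : Finset (Fin k → A))) => hx x)
  rw [sum_add_distrib, sum_const, card_univ, Fintype.card_fun, Fintype.card_fin, ← hN,
    nsmul_eq_mul] at hsum
  push_cast at hsum
  unfold HLG
  rw [mul_add]
  linarith

theorem fllg {k r s d M : ℕ} {A G : Type} [DecidableEq A] [Fintype A] [DecidableEq G] [Fintype G]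
    (C : CktG (VL k r A G) s d M) (e : Fin k → Fin r → Fin k) (x : Fin k → A)
    (R : Fin d → PA (VL k r A G)) (β h : ℕ) (hE : Expd e β h) (h1 : 1 ≤ h)
    (hG : GoodLG C e x R β h) :
    ∀ g ψ c, IsPath (C.T (KL e x univ) R g) ψ c → (tch e x ψ).card ≤ h := by
  -- all paths of all trees are small
  have key : ∀ n g, C.lev g = n → ∀ ψ c, IsPath (C.T (KL e x univ) R g) ψ c →
      (VS e (tch e x ψ)).card ≤ β := by
    intro n
    induction n using Nat.strong_induction_on with
    | _ n ih =>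
      intro g hg ψ c hψ
      rw [Pool.Agent.H90.QG.teqg] at hψ
      obtain ⟨π, hπ, hbp, _⟩ := canpg_t _ _ _ _ _ _ _ _ _ (nfree_le _) hψ
      have main : ∀ π, IsBPG M (C.cht (KL e x univ) R g) (rho (KL e x univ) R (C.lev g + 1)) π →
          (VS e (tch e x π.flatten)).card ≤ β := by
        intro π
        induction π using List.reverseRecOn with
        | nil =>
          intro _
          rw [List.flatten_nil, tch_nil]
          simp [VS]
        | append_singleton π α ihπ =>
          intro hb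
          obtain ⟨hb1, τ, hτ, hα⟩ := (bpsg_t _ _ _ _ _ _).1 hb
          have hs1 : (tch e x π.flatten).card ≤ h :=
            Pool.Agent.H70.AC.expd_small hE _ (ihπ hb1)
          have hs2 : (tch e x τ).card ≤ h := by
            obtain ⟨c, hc, hp⟩ := (scs_t _ _ _ _ (nx_some hτ).1).2.2.2
            obtain ⟨⟨b, a⟩, ha, rfl⟩ := (mem_chtG C _ R g c).1 hc
            rcases a with i | g'
            · rcases Pool.Agent.H70.AC.inp_path i τ _ hp with rfl | ⟨a, rfl⟩
              · rw [tch_nil]; simp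
              · exact (tch_single e x a).trans h1
            · have hl := C.acyc g b g' ha
              exact Pool.Agent.H70.AC.expd_small hE _ (ih (C.lev g') (by omega) g' rfl τ _ hp)
          have hs3 : (tch e x α).card ≤ h := by
            refine (Finset.card_le_card (tch_mono e x α τ ?_)).trans hs2
            intro v hv
            rw [hα, mem_fr] at hv
            exact hv.1
          by_contra hcon
          push Not at hcon
          have hfl : (π ++ [α]).flatten = π.flatten ++ α := by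
            rw [List.flatten_append]; simp
          have hcard : (tch e x (π ++ [α]).flatten).card ≤ 2 * h := by
            rw [hfl, tch_append]
            refine (Finset.card_union_le _ _).trans ?_
            omega
          set Λ := LL e x (π ++ [α]).flatten with hΛ
          have hAB : KL e x Λ ⊆ KL e x univ :=
            Finset.image_subset_image (Finset.subset_univ _)
          have hav : Avoid {v | v ∈ KL e x univ ∧ v ∉ KL e x Λ} (π ++ [α]).flatten := by
            intro c hc hcm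
            obtain ⟨hc1, hc2⟩ := hcm
            obtain ⟨j, _, hj⟩ := (mem_KL e x univ _).1 hc1
            apply hc2
            rw [mem_KL]
            refine ⟨j, ?_, hj⟩
            rw [hΛ, mem_LL, hj]
            exact List.mem_map_of_mem hc
          have hbA := (hLOCWG _ _ _ _ C _ _ R g hAB).2 _ hb hav
          obtain ⟨v, hv, hvn⟩ := hG Λ (by rw [VSL, hΛ, LL_image]; exact hcon)
            (by rw [hΛ, LL_image]; exact hcard) g _ hbA
          rw [mem_KL] at hv
          obtain ⟨j, hj, rfl⟩ := hv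
          rw [hΛ, mem_LL] at hj
          exact hvn hj
      rw [← hπ]
      exact main π hbp
  intro g ψ c hψ
  exact Pool.Agent.H70.AC.expd_small hE _ (key _ g rfl ψ c hψ)

open Classical in
theorem tjg (F : Type) [CommRing F] {k r s d M : ℕ} {A G : Type} [DecidableEq A] [Fintype A]
    [DecidableEq G] [Fintype G] (C : CktG (VL k r A G) s d M) (e : Fin k → Fin r → Fin k)
    (x : Fin k → A) (R : Fin d → PA (VL k r A G)) (z : VL k r A G → Bool) (β h : ℕ)
    (hE : Expd e β h) (hh : 1 ≤ h) (hG : GoodLG C e x R β h) (g : Fin s) :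
    (fun u : Fin k → G =>
      if C.val (yL e x u (fun v => (fd R d v).getD (z v))) g = true then (1 : F) else 0) ∈
      JH F k G h := by
  have h1 := tree_JH F e x (fun v => (fd R d v).getD (z v)) h (C.T (KL e x univ) R g) ∅ (by
    intro ψ c hψ
    rw [empty_union]
    exact fllg C e x R β h hE hh hG g ψ c hψ) (fun _ => 1) (fun _ _ _ => rfl)
  have hlev : C.lev g + 1 ≤ d := C.lev_lt g
  have hext : ∀ u : Fin k → G, Ext (rho (KL e x univ) R (C.lev g + 1))
      (yL e x u (fun v => (fd R d v).getD (z v))) := by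
    intro u v b hv
    simp only [rho, mask] at hv
    by_cases hP : v ∈ KL e x univ
    · simp [hP] at hv
    · simp only [hP, if_false] at hv
      have hne : v.1 ≠ pos e x v.1.1 := by
        intro hv1
        apply hP
        rw [mem_KL]
        refine ⟨(v.1.1, v.2), mem_univ _, ?_⟩
        simp only
        rw [← hv1]
      have h2 := fd_mono R hlev v b hv
      simp only [yL]
      rw [if_neg hne, h2]
      rfl
  convert h1 using 1
  funext u
  simp only [one_mul]
  rw [hCORG _ s d M C (KL e x univ) R g _ (hext u)]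

end Pool.Agent.H68.GQ
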