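import Pool.Agent.H68.GQ.Targets
import Pool.Agent.H90.QG.ENBG

/-!
# General gates: conversion of circuits

The proof is that of helper90 (module ENBG), with signed inputs.
-/

namespace Pool.Agent.H68.GQ

open Finset Pool.Agent.H68.AC Pool.Agent.H75.QG Pool.Agent.H68.GP Pool.Agent.H90.QG

section

open Classical

variable {I V : Type} [Fintype I] {s d M : ℕ}

/-- the converted circuit -/
noncomputable def convG (C : GCircuit I s M) (σ : I → Bool) (inc : I → Inp V) (lev : Fin s → ℕ)
    (h1 : ∀ g, lev g < d) (h2 : ∀ g, ∀ c ∈ C.wires g, lev c.1 < lev g) : CktG V s d M where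
  ch g := (L1 C g).map (fun c => (xor (σ c.1) c.2, Sum.inl (inc c.1))) ++
    (L2 C g).map (fun c => (c.2, Sum.inr c.1))
  op g l := decide (C.op g (pick (L1 C g) (l.take (L1 C g).length))
    (pick (L2 C g) (l.drop (L1 C g).length)))
  df g := decide (C.dflt g)
  op_df := by
    intro g l hl hc
    rw [List.length_append, List.length_map, List.length_map] at hl
    have e1 : (l.take (L1 C g).length).length = (L1 C g).length := by
      rw [List.length_take]; omega
    have e2 : (l.drop (L1 C g).length).length = (L2 C g).length := by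
      rw [List.length_drop]; omega
    have := C.op_eq g (pick (L1 C g) (l.take (L1 C g).length))
      (fun c hc => (mem_L1 C g c).1 (pick_sub hc)) (pick (L2 C g) (l.drop (L1 C g).length))
      (fun c hc => (mem_L2 C g c).1 (pick_sub hc)) (by
        rw [pick_card (L1 C g) _ (Finset.nodup_toList _) e1,
          pick_card (L2 C g) _ (Finset.nodup_toList _) e2]
        have e3 : l.count true = (l.take (L1 C g).length).count true +
            (l.drop (L1 C g).length).count true := by
          rw [← List.count_append, List.take_append_drop]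
        rw [e3] at hc
        exact_mod_cast hc)
    exact decide_eq_decide.2 this
  lev := lev
  lev_lt := h1
  acyc := by
    intro g b g' h
    rw [List.mem_append] at h
    rcases h with h | h
    · obtain ⟨c, _, hc⟩ := List.mem_map.1 h
      simp only [Prod.mk.injEq, reduceCtorEq, and_false] at hc
    · obtain ⟨c, hc, he⟩ := List.mem_map.1 h
      simp only [Prod.mk.injEq, Sum.inr.injEq] at he
      rw [← he.2]
      exact h2 g c ((mem_L2 C g c).1 hc)
  out := C.out

theorem convG_val (C : GCircuit I s M) (σ : I → Bool) (inc : I → Inp V) (lev : Fin s → ℕ)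
    (h1 : ∀ g, lev g < d) (h2 : ∀ g, ∀ c ∈ C.wires g, lev c.1 < lev g) (y : V → Bool) (g : Fin s) :
    (convG C σ inc lev h1 h2).val y g = true ↔
      C.op g {c | c ∈ C.lits g ∧ (inc c.1).val y = xor (σ c.1) c.2}
        {c | c ∈ C.wires g ∧ (convG C σ inc lev h1 h2).val y c.1 = c.2} := by
  set C' := convG C σ inc lev h1 h2 with hC'
  rw [valg V s d M C' y g]
  have e0 : (C'.ch g).map (fun c => C'.sval y c.2 == c.1) =
      (L1 C g).map (fun c => (inc c.1).val y == xor (σ c.1) c.2) ++
        (L2 C g).map (fun c => C'.val y c.1 == c.2) := by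
    change List.map _ (List.map _ (L1 C g) ++ List.map _ (L2 C g)) = _
    rw [List.map_append, List.map_map, List.map_map]
    rfl
  rw [e0]
  change decide (C.op g _ _) = true ↔ _
  rw [decide_eq_true_iff]
  have e1 : ((L1 C g).map (fun c => (inc c.1).val y == xor (σ c.1) c.2) ++
        (L2 C g).map (fun c => C'.val y c.1 == c.2)).take (L1 C g).length =
      (L1 C g).map (fun c => (inc c.1).val y == xor (σ c.1) c.2) := by
    rw [List.take_append_of_le_length (by rw [List.length_map])]
    rw [List.take_of_length_le (by rw [List.length_map])]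
  have e2 : ((L1 C g).map (fun c => (inc c.1).val y == xor (σ c.1) c.2) ++
        (L2 C g).map (fun c => C'.val y c.1 == c.2)).drop (L1 C g).length =
      (L2 C g).map (fun c => C'.val y c.1 == c.2) := by
    have := List.drop_left (l₁ := (L1 C g).map (fun c => (inc c.1).val y == xor (σ c.1) c.2))
      (l₂ := (L2 C g).map (fun c => C'.val y c.1 == c.2))
    rw [List.length_map] at this
    exact this
  rw [e1, e2]
  have e3 : pick (L1 C g) ((L1 C g).map (fun c => (inc c.1).val y == xor (σ c.1) c.2)) =
      {c | c ∈ C.lits g ∧ (inc c.1).val y = xor (σ c.1) c.2} := by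
    ext c
    rw [mem_pick_map, mem_L1, beq_iff_eq]
    rfl
  have e4 : pick (L2 C g) ((L2 C g).map (fun c => C'.val y c.1 == c.2)) =
      {c | c ∈ C.wires g ∧ C'.val y c.1 = c.2} := by
    ext c
    rw [mem_pick_map, mem_L2, beq_iff_eq]
    rfl
  rw [e3, e4]

end

theorem encg : T_ENCG := by
  intro I V _ s d M C σ inc hd
  obtain ⟨lev, h1, h2⟩ := hd
  refine ⟨convG C σ inc lev h1 h2, fun y => ?_⟩
  have key : ∀ n, ∀ g : Fin s, g.1 < n →
      ((convG C σ inc lev h1 h2).val y g = true ↔ C.Holds (enc σ inc y) g) := by
    intro n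
    induction n with
    | zero => intro g hg; omega
    | succ n ih =>
      intro g hg
      rw [convG_val, GCircuit.Holds]
      have e : {c : Fin s × Bool | c ∈ C.wires g ∧ (convG C σ inc lev h1 h2).val y c.1 = c.2} =
          {c | ∃ _h : c ∈ C.wires g, (C.Holds (enc σ inc y) c.1 ↔ c.2 = true)} := by
        ext c
        change (c ∈ C.wires g ∧ (convG C σ inc lev h1 h2).val y c.1 = c.2) ↔
          (∃ _h : c ∈ C.wires g, (C.Holds (enc σ inc y) c.1 ↔ c.2 = true))
        constructor
        · rintro ⟨hc, h⟩
          refine ⟨hc, ?_⟩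
          have := C.topo g c hc
          rw [← ih c.1 (by have := Fin.lt_def.1 this; omega), h]
        · rintro ⟨hc, h⟩
          refine ⟨hc, ?_⟩
          have := C.topo g c hc
          rw [← ih c.1 (by have := Fin.lt_def.1 this; omega)] at h
          exact Bool.eq_iff_iff.2 h
      have e2 : {c : I × Bool | c ∈ C.lits g ∧ (inc c.1).val y = xor (σ c.1) c.2} =
          {c | c ∈ C.lits g ∧ enc σ inc y c.1 = c.2} := by
        ext c
        change (c ∈ C.lits g ∧ (inc c.1).val y = xor (σ c.1) c.2) ↔
          (c ∈ C.lits g ∧ xor (σ c.1) ((inc c.1).val y) = c.2)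
        refine and_congr_right (fun _ => ?_)
        cases σ c.1 <;> cases (inc c.1).val y <;> cases c.2 <;> simp
      rw [e, e2]
  exact fun g => key s g g.2

end Pool.Agent.H68.GQ
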