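import Pool.Agent.H75.QF.Main
import Pool.Agent.H75.QF.Key
import Pool.Agent.H68.GP.Main
import Pool.Agent.H75.QG.Final
import Pool.Agent.H33.QF.ENF
import Pool.Agent.H33.QF.RLB
import Pool.Agent.H33.QF.PARF
import Pool.Agent.H48.QF.HGF
import Pool.Agent.H48.QF.NULF

/-!
# Families of circuits, chosen by an observer who knows the unsatisfiable formula

The classical analogue of the quantum theorem of `H75/QF`: among `2 ^ t` circuits, any set of
`2 ^ ((1 - ε) w)` of them, chosen knowing the unsatisfiable formula, agrees on the two formulas.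
-/

namespace Pool.Agent.H68.GQ

open Finset Filter Pool.Agent.H68.AC Pool.Agent.H75.QA Pool.Agent.H75.QG Pool.Agent.H75.QF
  Pool.Agent.H68.GP

/-- The core: the constraint satisfaction function. -/
theorem coreC (hKEY : T_KEYF) (hADEEP : T_ADEEPG)
    (k r s d M : ℕ) (A : Type) [DecidableEq A] [Fintype A] (w : ℕ) (e : Fin k → Fin r → Fin k)
    (p q : ℝ) (β h γ h₁ : ℕ) (hE : Expd e β h) (hG : Expg e γ h₁) (hh : 1 ≤ h) (hw : 1 ≤ w)
    (hp : 0 < p) (hp1 : p ≤ 1 / 2) (hq : 0 < q) (hq1 : q ≤ 1 / 2) (hwq : 64 * ((M : ℝ) + 1) * w * q ≤ p)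
    (hA : 1 ≤ Fintype.card A) (κ : Type) [Fintype κ] (F : κ → CktG (VV k r A) s d M)
    (J : (VV k r A → Bool) → Finset κ) (T : ℝ) (hT : ∀ y, ((J y).card : ℝ) ≤ T)
    (Bd : (VV k r A → Bool) → Prop)
    (ans : (VV k r A → Bool) → κ → Prop)
    (hans : ∀ y y' i, (F i).val y (F i).out = (F i).val y' (F i).out → (ans y i ↔ ans y' i)) :
    ∑ y : VV k r A → Bool, wz p y * ((1 - ind (Bd y)) *
      ∑ x : Fin k → A, ind (∃ i ∈ J y, ¬ (ans (pl (K e x univ) y) i ↔ ans y i))) ≤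
      (Fintype.card A : ℝ) ^ k * (T * (etaF k (Fintype.card A) s w β h d γ h₁ q +
        Fintype.card κ * deepG k s w M)) := by
  classical
  set N : ℝ := (Fintype.card A : ℝ) with hN
  have hN1 : 1 ≤ N := by rw [hN]; exact_mod_cast hA
  have hN0 : 0 < N := by linarith
  have hT0 : 0 ≤ T := le_trans (Nat.cast_nonneg _) (hT (fun _ => false))
  have hX : (Fintype.card (Fin k → A) : ℝ) = N ^ k := by
    rw [hN, Fintype.card_fun, Fintype.card_fin]
    push_cast
    rfl
  have hqw : q * w ≤ 1 := by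
    have h1 : (0 : ℝ) ≤ q * w := by positivity
    have h2 : (0 : ℝ) ≤ M * (q * w) := by positivity
    nlinarith
  set η : ℝ := etaF k (Fintype.card A) s w β h d γ h₁ q with hη
  set dp : κ → (VV k r A → Bool) → ℝ := fun i y => ∑ x : Fin k → A,
    ∑ S : Fin d → VV k r A → Bool, WS q S * ind (¬ ShalG (F i) w e x S y) with hdp
  have hdp0 : ∀ i y, 0 ≤ dp i y := fun i y => Finset.sum_nonneg (fun x _ => Finset.sum_nonneg
    (fun S _ => mul_nonneg (WS_nonneg hq.le (by linarith) S) (ind_nonneg _)))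
  set dd : (VV k r A → Bool) → ℝ := fun y => η + (∑ i, dp i y) / N ^ k with hdd
  have hη0 : 0 ≤ η := by
    rw [hη]
    unfold etaF
    rw [← hN]
    have h1 : (1 : ℝ) ≤ (1 + 2 * w / (q ^ d * N ^ γ)) ^ k := by
      apply one_le_pow₀
      have : 0 ≤ 2 * (w : ℝ) / (q ^ d * N ^ γ) := by positivity
      linarith
    have h2 : 0 ≤ 2 ^ k * ((s : ℝ) * ((2 * w / q ^ d) ^ (2 * h) / N ^ (β + 1))) := by positivity
    have h3 : 0 ≤ 2 ^ k * ((2 * w / q ^ d) ^ h / N ^ (γ * h₁)) := by positivity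
    nlinarith
  have hdd0 : ∀ y, 0 ≤ dd y := fun y => add_nonneg hη0
    (div_nonneg (Finset.sum_nonneg (fun i _ => hdp0 i y)) (by positivity))
  -- for fixed y
  have hy : ∀ y : VV k r A → Bool,
      ∑ x : Fin k → A, ind (∃ i ∈ J y, ¬ (ans (pl (K e x univ) y) i ↔ ans y i)) ≤
      T * dd y * N ^ k := by
    intro y
    have h1 : ∀ i, ∑ x : Fin k → A, ind (¬ (ans (pl (K e x univ) y) i ↔ ans y i)) ≤ dd y * N ^ k := by
      intro i
      have h2 := hKEY k r s d M A (F i) w e q β h γ h₁ hE hG hh hw hq (by linarith) hqw hA y (F i).out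
      calc ∑ x : Fin k → A, ind (¬ (ans (pl (K e x univ) y) i ↔ ans y i))
          ≤ ∑ x : Fin k → A, ind ((F i).val (pl (K e x univ) y) (F i).out ≠ (F i).val y (F i).out) := by
            refine Finset.sum_le_sum (fun x _ => ind_mono (fun hn heq => hn ?_))
            exact hans _ _ i heq
        _ ≤ N ^ k * η + dp i y := h2
        _ ≤ N ^ k * η + ∑ i, dp i y := by
            have := Finset.single_le_sum (f := fun i => dp i y) (fun i _ => hdp0 i y) (mem_univ i)
            linarith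
        _ = dd y * N ^ k := by
            rw [hdd]
            field_simp
    calc ∑ x : Fin k → A, ind (∃ i ∈ J y, ¬ (ans (pl (K e x univ) y) i ↔ ans y i))
        ≤ ∑ x : Fin k → A, ∑ i ∈ J y, ind (¬ (ans (pl (K e x univ) y) i ↔ ans y i)) := by
          refine Finset.sum_le_sum (fun x _ => ?_)
          by_cases hex : ∃ i ∈ J y, ¬ (ans (pl (K e x univ) y) i ↔ ans y i)
          · obtain ⟨i, hi, hn⟩ := hex
            rw [ind_true ⟨i, hi, hn⟩]
            have h3 := Finset.single_le_sum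
              (f := fun i => ind (¬ (ans (pl (K e x univ) y) i ↔ ans y i)))
              (fun i _ => ind_nonneg _) hi
            simp only [ind_true hn] at h3
            exact h3
          · rw [ind_false hex]
            exact Finset.sum_nonneg (fun i _ => ind_nonneg _)
      _ = ∑ i ∈ J y, ∑ x : Fin k → A, ind (¬ (ans (pl (K e x univ) y) i ↔ ans y i)) :=
          Finset.sum_comm
      _ ≤ ∑ i ∈ J y, dd y * N ^ k := Finset.sum_le_sum (fun i _ => h1 i)
      _ = (J y).card * (dd y * N ^ k) := by rw [Finset.sum_const, nsmul_eq_mul]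
      _ ≤ T * (dd y * N ^ k) := mul_le_mul_of_nonneg_right (hT y)
          (mul_nonneg (hdd0 y) (by positivity))
      _ = T * dd y * N ^ k := by ring
  have hwz : ∀ y : VV k r A → Bool, 0 ≤ wz p y := fun y =>
    Pool.Agent.H90.AC.wz_nonneg hp.le (by linarith) y
  -- the average of dd
  have havg : ∑ y : VV k r A → Bool, wz p y * dd y ≤ η + Fintype.card κ * deepG k s w M := by
    have h1 : ∀ i, ∑ y : VV k r A → Bool, wz p y * dp i y ≤ N ^ k * deepG k s w M := by
      intro i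
      calc ∑ y : VV k r A → Bool, wz p y * dp i y
          = ∑ x : Fin k → A, ∑ S : Fin d → VV k r A → Bool, ∑ y : VV k r A → Bool,
            WS q S * wz p y * ind (¬ ShalG (F i) w e x S y) := by
            simp only [hdp, Finset.mul_sum]
            rw [Finset.sum_comm]
            refine Finset.sum_congr rfl (fun x _ => ?_)
            rw [Finset.sum_comm]
            refine Finset.sum_congr rfl (fun S _ => ?_)
            exact Finset.sum_congr rfl (fun y _ => by ring)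
        _ ≤ ∑ _x : Fin k → A, deepG k s w M := Finset.sum_le_sum (fun x _ =>
            hADEEP k r s d M A (F i) w e x p q hw hp hp1 hq hq1 hwq)
        _ = N ^ k * deepG k s w M := by
            rw [Finset.sum_const, Finset.card_univ, nsmul_eq_mul, hX]
    calc ∑ y : VV k r A → Bool, wz p y * dd y
        = η * ∑ y : VV k r A → Bool, wz p y +
          (∑ i, ∑ y : VV k r A → Bool, wz p y * dp i y) / N ^ k := by
          rw [Finset.sum_comm, Finset.sum_div, Finset.mul_sum, ← Finset.sum_add_distrib]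
          refine Finset.sum_congr rfl (fun y _ => ?_)
          rw [hdd, ← Finset.mul_sum]
          ring
      _ ≤ η * 1 + (∑ _i : κ, N ^ k * deepG k s w M) / N ^ k := by
          rw [Pool.Agent.H90.AC.sum_wz]
          refine add_le_add le_rfl ?_
          exact div_le_div_of_nonneg_right (Finset.sum_le_sum (fun i _ => h1 i)) (by positivity)
      _ = η + Fintype.card κ * deepG k s w M := by
          rw [Finset.sum_const, Finset.card_univ, nsmul_eq_mul]
          field_simp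
  calc ∑ y : VV k r A → Bool, wz p y * ((1 - ind (Bd y)) *
        ∑ x : Fin k → A, ind (∃ i ∈ J y, ¬ (ans (pl (K e x univ) y) i ↔ ans y i)))
      ≤ ∑ y : VV k r A → Bool, wz p y * (T * dd y * N ^ k) := by
        refine Finset.sum_le_sum (fun y _ => mul_le_mul_of_nonneg_left ?_ (hwz y))
        have h0 : 0 ≤ ∑ x : Fin k → A, ind (∃ i ∈ J y, ¬ (ans (pl (K e x univ) y) i ↔ ans y i)) :=
          Finset.sum_nonneg (fun _ _ => ind_nonneg _)
        have h1 := ind_nonneg (Bd y)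
        refine le_trans ?_ (hy y)
        nlinarith
    _ = N ^ k * (T * ∑ y : VV k r A → Bool, wz p y * dd y) := by
        rw [Finset.mul_sum, Finset.mul_sum]
        exact Finset.sum_congr rfl (fun y _ => by ring)
    _ ≤ N ^ k * (T * (η + Fintype.card κ * deepG k s w M)) := by
        refine mul_le_mul_of_nonneg_left (mul_le_mul_of_nonneg_left havg hT0) (by positivity)

/-- The assembly for given parameters. -/
theorem assembleC (hKEY : T_KEYF) (hADEEP : T_ADEEPG) (hNULL : T_NULF) (hENB : T_ENBG)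
    (hRLB : T_RLB) (n m k r d W g : ℕ) (A : Type) [DecidableEq A] [Fintype A]
    (e : Fin k → Fin r → Fin k) (σ : Fin m × Fin n × Bool → Bool)
    (inc : Fin m × Fin n × Bool → Inp (VV k r A)) (ε : ℝ)
    (hK : ∀ y, KCNF W (enc σ inc y)) (hS : ∀ y, fE e y → Satisfiable (enc σ inc y))
    (hF : ∀ y, (∀ x : Fin k → A, (univ.filter (fun j => y (pos e x j) = true)).card ≤ g) →
      Far ε W (enc σ inc y))
    (p : ℝ) (β h γ h₁ : ℕ) (hE : Expd e β h) (hG : Expg e γ h₁) (hh : 1 ≤ h)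
    (hp : 0 < p) (hp1 : p ≤ 1 / 2) (hcard1 : 1 ≤ Fintype.card A) :
    ∃ (Ω : Type) (_ : Fintype Ω) (μ : Ω → ℝ) (φ₀ φ₁ : Ω → Fin m × Fin n × Bool → Bool),
    (∀ ω, 0 ≤ μ ω) ∧ ∑ ω, μ ω = 1 ∧
    (∀ ω, KCNF W (φ₀ ω) ∧ Far ε W (φ₀ ω) ∧ KCNF W (φ₁ ω) ∧ Satisfiable (φ₁ ω)) ∧
    ∀ (t D : ℕ) (q T : ℝ) (κ : Type) [Fintype κ] (s : ℕ)
      (F : κ → GCircuit (Fin m × Fin n × Bool) s t)
      (J : (Fin m × Fin n × Bool → Bool) → Finset κ),
      1 ≤ D → 0 < q → q ≤ 1 / 2 → 64 * ((t : ℝ) + 1) * D * q ≤ p →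
      Fintype.card κ ≤ 2 ^ t → (∀ i, (F i).DepthLE d) → 0 ≤ T →
      (∀ φ, ((J φ).card : ℝ) ≤ T) →
      ∑ ω, μ ω * ind (∃ i ∈ J (φ₀ ω), ¬ (answersG F (φ₁ ω) i ↔ answersG F (φ₀ ω) i)) ≤
        (Fintype.card A : ℝ) ^ k * 2 ^ k * p ^ (g + 1) +
        T * (etaF k (Fintype.card A) s D β h d γ h₁ q + 2 ^ t * deepG k s D t) := by
  classical
  set N : ℝ := (Fintype.card A : ℝ) with hN
  have hN0 : 0 < N := by rw [hN]; exact_mod_cast hcard1
  have hX : (Fintype.card (Fin k → A) : ℝ) = N ^ k := by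
    rw [hN, Fintype.card_fun, Fintype.card_fin]
    push_cast
    rfl
  set En : (VV k r A → Bool) → Fin m × Fin n × Bool → Bool := fun y => enc σ inc y with hEn
  set Bd : (VV k r A → Bool) → Prop := fun y =>
    ∃ x : Fin k → A, g < (univ.filter (fun j => y (pos e x j) = true)).card with hBd
  set y' : (VV k r A → Bool) → (VV k r A → Bool) := fun y => if Bd y then (fun _ => false) else y
    with hy'
  have hwz : ∀ y : VV k r A → Bool, 0 ≤ wz p y := fun y =>
    Pool.Agent.H90.AC.wz_nonneg hp.le (by linarith) y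
  have hy1 : ∀ y, ¬ Bd y → y' y = y := fun y h => if_neg h
  have hy2 : ∀ y, Bd y → y' y = fun _ => false := fun y h => if_pos h
  have hfar : ∀ y, ∀ x : Fin k → A, (univ.filter (fun j => y' y (pos e x j) = true)).card ≤ g := by
    intro y x
    by_cases h : Bd y
    · rw [hy2 y h]
      simp
    · rw [hy1 y h]
      by_contra hcon
      exact h ⟨x, not_le.1 hcon⟩
  have hsat : ∀ (y : VV k r A → Bool) (x : Fin k → A), fE e (pl (K e x univ) y) := by
    intro y x
    refine ⟨x, fun j => ?_⟩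
    have : pos e x j ∈ K e x univ := Finset.mem_image_of_mem _ (mem_univ j)
    simp [pl, this]
  refine ⟨(VV k r A → Bool) × (Fin k → A), inferInstance, fun ω => wz p ω.1 / N ^ k,
    fun ω => En (y' ω.1), fun ω => En (pl (K e ω.2 univ) (y' ω.1)), ?_, ?_, ?_, ?_⟩
  · intro ω
    exact div_nonneg (hwz _) (by positivity)
  · rw [Fintype.sum_prod_type]
    simp only [Finset.sum_const, Finset.card_univ, nsmul_eq_mul, hX]
    have : ∀ y : VV k r A → Bool, N ^ k * (wz p y / N ^ k) = wz p y := fun y => by field_simp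
    simp only [this]
    exact Pool.Agent.H90.AC.sum_wz p
  · intro ω
    exact ⟨hK _, hF _ (hfar _), hK _, hS _ (hsat _ _)⟩
  · intro t D q T κ _ s F J hD hq hq1 hwq hκ hd hT0 hT
    have hC : ∀ i, ∃ C' : CktG (VV k r A) s d t, ∀ y,
        (C'.val y C'.out = true ↔ (F i).Holds (En y) (F i).out) := by
      intro i
      obtain ⟨C₁, ho, hd₁, h₁⟩ := hRLB _ s t (F i) σ
      obtain ⟨C', h₂⟩ := hENB _ (VV k r A) s d t C₁ inc (hd₁ d (hd i))
      refine ⟨C', fun y => ?_⟩
      rw [h₂, h₁, ho]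
      rfl
    choose C' hb using hC
    have hcore := coreC hKEY hADEEP k r s d t A D e p q β h γ h₁ hE hG hh hD hp
      hp1 hq hq1 hwq hcard1 κ C' (fun y => J (En y)) T (fun y => hT _) Bd
      (fun y => answersG F (En y))
      (fun y y' i h => by
        show (F i).Holds (En y) (F i).out ↔ (F i).Holds (En y') (F i).out
        rw [← hb, ← hb, h])
    have hnull := hNULL k r g A e p hp.le (by linarith)
    have hde : 0 ≤ deepG k s D t := by unfold deepG; positivity
    have hsq : T * (etaF k (Fintype.card A) s D β h d γ h₁ q + Fintype.card κ * deepG k s D t) ≤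
        T * (etaF k (Fintype.card A) s D β h d γ h₁ q + 2 ^ t * deepG k s D t) := by
      apply mul_le_mul_of_nonneg_left _ hT0
      refine add_le_add le_rfl (mul_le_mul_of_nonneg_right ?_ hde)
      exact_mod_cast hκ
    calc ∑ ω : (VV k r A → Bool) × (Fin k → A), wz p ω.1 / N ^ k *
          ind (∃ i ∈ J (En (y' ω.1)), ¬ (answersG F (En (pl (K e ω.2 univ) (y' ω.1))) i ↔
            answersG F (En (y' ω.1)) i))
        = ∑ y : VV k r A → Bool, wz p y * ((∑ x : Fin k → A,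
          ind (∃ i ∈ J (En (y' y)), ¬ (answersG F (En (pl (K e x univ) (y' y))) i ↔
            answersG F (En (y' y)) i))) / N ^ k) := by
          rw [Fintype.sum_prod_type]
          refine Finset.sum_congr rfl (fun y _ => ?_)
          rw [Finset.sum_div, Finset.mul_sum]
          exact Finset.sum_congr rfl (fun x _ => by ring)
      _ ≤ ∑ y : VV k r A → Bool, (wz p y * ind (Bd y) + wz p y * ((1 - ind (Bd y)) *
          ∑ x : Fin k → A, ind (∃ i ∈ J (En y), ¬ (answersG F (En (pl (K e x univ) y)) i ↔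
            answersG F (En y) i))) / N ^ k) := by
          refine Finset.sum_le_sum (fun y _ => ?_)
          by_cases h : Bd y
          · rw [ind_true h]
            have h1 : (∑ x : Fin k → A,
                ind (∃ i ∈ J (En (y' y)), ¬ (answersG F (En (pl (K e x univ) (y' y))) i ↔
                  answersG F (En (y' y)) i))) / N ^ k ≤ 1 := by
              rw [div_le_one (by positivity), ← hX, ← Finset.card_univ, ← nsmul_one,
                ← Finset.sum_const]
              exact Finset.sum_le_sum (fun x _ => ind_le_one _)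
            have h2 := mul_le_mul_of_nonneg_left h1 (hwz y)
            simp only [sub_self, zero_mul, mul_zero, zero_div, add_zero]
            exact h2
          · rw [ind_false h, hy1 y h]
            refine le_of_eq ?_
            ring
      _ = ∑ y : VV k r A → Bool, wz p y * ind (Bd y) + (∑ y : VV k r A → Bool, wz p y *
          ((1 - ind (Bd y)) * ∑ x : Fin k → A,
            ind (∃ i ∈ J (En y), ¬ (answersG F (En (pl (K e x univ) y)) i ↔
            answersG F (En y) i)))) / N ^ k := by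
          rw [Finset.sum_add_distrib, Finset.sum_div]
      _ ≤ N ^ k * 2 ^ k * p ^ (g + 1) + (N ^ k * (T * (etaF k (Fintype.card A) s D β h d γ h₁ q +
          Fintype.card κ * deepG k s D t))) / N ^ k :=
          add_le_add hnull (div_le_div_of_nonneg_right hcore (pow_nonneg hN0.le k))
      _ = N ^ k * 2 ^ k * p ^ (g + 1) + T * (etaF k (Fintype.card A) s D β h d γ h₁ q +
          Fintype.card κ * deepG k s D t) := by
          field_simp
      _ ≤ N ^ k * 2 ^ k * p ^ (g + 1) + T * (etaF k (Fintype.card A) s D β h d γ h₁ q +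
          2 ^ t * deepG k s D t) := by
          refine add_le_add le_rfl ?_
          exact hsq

/-- FAM: among `2 ^ t` circuits any set of `2 ^ ((1 - ε) w)` of them, chosen knowing the unsatisfiable
formula, does not see the difference. -/
def T_FAM : Prop := ∀ ε : ℝ, 0 < ε → ε ≤ 1 → ∃ c : ℕ, 1 ≤ c ∧ ∀ᶠ n : ℕ in atTop, ∀ d w m : ℕ, 1 ≤ d →
  c * d * Nat.log 2 n ≤ w → c * w ≤ n → n * 2 ^ w ≤ m →
  ∃ (Ω : Type) (_ : Fintype Ω) (μ : Ω → ℝ) (φ₀ φ₁ : Ω → Fin m × Fin n × Bool → Bool),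
    (∀ ω, 0 ≤ μ ω) ∧ ∑ ω, μ ω = 1 ∧
    (∀ ω, KCNF w (φ₀ ω) ∧ Far ε w (φ₀ ω) ∧ KCNF w (φ₁ ω) ∧ Satisfiable (φ₁ ω)) ∧
    ∀ (t : ℕ) (κ : Type) [Fintype κ] (s : ℕ) (F : κ → GCircuit (Fin m × Fin n × Bool) s t)
      (J : (Fin m × Fin n × Bool → Bool) → Finset κ),
      1 ≤ t → t ^ (c * d) ≤ 2 ^ w → Fintype.card κ ≤ 2 ^ t → (s : ℝ) ≤ 2 ^ ((1 - ε) * n) →
      (∀ i, (F i).DepthLE d) → (∀ φ, ((J φ).card : ℝ) ≤ 2 ^ ((1 - ε) * w)) →
      ∑ ω, μ ω * ind (∃ i ∈ J (φ₀ ω), ¬ (answersG F (φ₁ ω) i ↔ answersG F (φ₀ ω) i)) ≤ 1 / t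

theorem fam_t (hKEY : T_KEYF) (hADEEP : T_ADEEPG) (hNULL : T_NULF)
    (hENB : T_ENBG) (hRLB : T_RLB) (hHG : T_HGF) (hENF : T_ENF) (hPAR : T_PARF) : T_FAM := by
  intro ε hε hε1
  set ε' : ℝ := ε / 2 with hε'
  have hε'0 : 0 < ε' := by positivity
  have hε'1 : ε' ≤ 1 := by linarith
  have hε'ε : ε' ≤ ε := by linarith
  obtain ⟨β, L, hβ, hβ1, hP⟩ := hPAR ε' hε'0 hε'1
  obtain ⟨c₀, c₁, hc₀, hc₁, hH⟩ := hHG β L hβ hβ1
  obtain ⟨c, hc1, hc⟩ := hP c₀ c₁ hc₀ hc₁
  refine ⟨c, hc1, ?_⟩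
  filter_upwards [hc] with n hn d w m hd hcw hwn hm
  obtain ⟨k, ℓ, r, γ, h₁, δ, p, hk, hℓ, hkl, hrl, hw1, hwn', hkε, hδ, hc₀', hr, hγ, hγh, hδk, hp, hp1, hN⟩ :=
    hn d w hd hcw hwn
  obtain ⟨e, hE, hG⟩ := hH δ γ r k h₁ hδ hc₀' hr hγ hγh hk
  obtain ⟨σ, inc, hK, hS, hV⟩ := hENF k (r + 1 + γ) ℓ n m w e hk hw1 hkl hrl hwn'
  have hcard : Fintype.card (Fin ℓ → Bool) = 2 ^ ℓ := by simp
  have hcard1 : 1 ≤ Fintype.card (Fin ℓ → Bool) := by rw [hcard]; exact Nat.one_le_two_pow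
  have hg : ((⌊ε' / 2 * k⌋₊ : ℕ) : ℝ) ≤ ε' / 2 * k := Nat.floor_le (by positivity)
  obtain ⟨Ω, hΩ, μ, φ₀, φ₁, h1, h2, h3, h4⟩ := assembleC hKEY hADEEP hNULL hENB hRLB n m k
    (r + 1 + γ) d w ⌊ε' / 2 * k⌋₊ (Fin ℓ → Bool) e σ inc ε' hK hS
    (fun y hy => far_of hε'0 hε'1 hk hkε hg hm _ (hV y _ hy)) p _ _ γ h₁ hE hG hδk hp hp1 hcard1
  refine ⟨Ω, hΩ, μ, φ₀, φ₁, h1, h2,
    fun ω => ⟨(h3 ω).1, (h3 ω).2.1.mono hε'ε, (h3 ω).2.2.1, (h3 ω).2.2.2⟩, ?_⟩
  intro t κ _ s F J ht htw hκ hs hd' hJ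
  obtain ⟨D, q, hD, hq, hq1, hDq, hfin⟩ := hN t ht htw
  have hT0 : (0 : ℝ) ≤ 2 ^ ((1 - ε) * w) := by positivity
  refine (h4 t D q (2 ^ ((1 - ε) * w)) κ s F J hD hq hq1 hDq hκ hd' hT0 hJ).trans ?_
  rw [hcard]
  push_cast
  have hs' : (s : ℝ) ≤ 2 ^ ((1 - ε') * n) := by
    refine hs.trans (Real.rpow_le_rpow_of_exponent_le (by norm_num) ?_)
    exact mul_le_mul_of_nonneg_right (by linarith) (Nat.cast_nonneg n)
  have h5 := hfin s (2 ^ ((1 / 2 - ε') * w)) hs' (by positivity) le_rfl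
  set X : ℝ := etaF k (2 ^ ℓ) s D ⌊β * k⌋₊ ⌊δ * k⌋₊ d γ h₁ q + 2 ^ t * deepG k s D t with hX
  set z : ℝ := 2 ^ ((1 / 2 - ε') * w) * √X with hz
  have hz0 : 0 ≤ z := by positivity
  have hn0 : (0 : ℝ) ≤ (2 ^ ℓ) ^ k * 2 ^ k * p ^ (⌊ε' / 2 * k⌋₊ + 1) := by positivity
  have h6 : (2 : ℝ) ^ ((1 - ε) * w) * X ≤ z ^ 2 := by
    have h7 : (2 : ℝ) ^ ((1 - ε) * w) = (2 ^ ((1 / 2 - ε') * w)) ^ 2 := by
      rw [← Real.rpow_natCast, ← Real.rpow_mul (by norm_num)]
      congr 1
      rw [hε']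
      push_cast
      ring
    rw [h7, hz, mul_pow]
    apply mul_le_mul_of_nonneg_left _ (by positivity)
    rcases le_total 0 X with h8 | h8
    · rw [Real.sq_sqrt h8]
    · exact h8.trans (sq_nonneg _)
  have h7 : (2 ^ ℓ) ^ k * 2 ^ k * p ^ (⌊ε' / 2 * k⌋₊ + 1) + 4 * z ≤ 1 / t := by
    rw [hz]
    linarith
  have ht1 : (1 : ℝ) / t ≤ 1 := by
    rw [div_le_one (by exact_mod_cast ht)]
    exact_mod_cast ht
  have h8 : z ≤ 1 := by linarith
  nlinarith

theorem FAM : T_FAM :=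
  fam_t (keyf_t hFLAG hEABG hLOCWG hCORG) hADEEPG Pool.Agent.H48.QF.NULF Pool.Agent.H90.QG.enbg
    Pool.Agent.H33.QF.rlb Pool.Agent.H48.QF.HGF Pool.Agent.H33.QF.enf Pool.Agent.H33.QF.parf

end Pool.Agent.H68.GQ
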