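import Pool.Agent.H68.GQ.Stmt

/-!
# Gap-SETH for constant-depth circuits: probabilities
-/

namespace Pool.Agent.H68.GQ

open Classical in
/-- For a probability distribution `μ` on `ι`: the probability of the event `E`. -/
noncomputable def prob {ι : Type} [Fintype ι] (μ : ι → ℝ) (E : ι → Prop) : ℝ :=
  ∑ i, if E i then μ i else 0

end Pool.Agent.H68.GQ
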