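import Pool.Agent.H68.GQ.Main
import Pool.Agent.H68.GQ.Fam
import Pool.Agent.H68.GQ.Prob

/-!
# Gap-SETH for constant-depth circuits with general gates: final form
-/

namespace Pool.Agent.H68.GQ

open Finset Filter Pool.Agent.H68.AC Pool.Agent.H75.QG Pool.Agent.H68.GP

/-- The theorem, with families of circuits. -/
def T_FINALF : Prop := ∀ ε : ℝ, 0 < ε → ∃ c : ℕ, ∀ᶠ n : ℕ in atTop, ∀ d D w m M : ℕ, 1 ≤ d → 1 ≤ D →
  c * (d + D) * Nat.log 2 n ≤ w → w < n → n * 2 ^ w ≤ m → M ^ (c * (d + D)) ≤ 2 ^ w →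
  (∀ (s : ℕ) (C : GCircuit (Fin m × Fin n × Bool) s M)
    (P : MvPolynomial (Fin s ⊕ (Fin m × Fin n × Bool)) ℝ), C.DepthLE d → P.totalDegree ≤ D →
    (∀ φ, KCNF w φ → Satisfiable φ → 0 < MvPolynomial.eval (Pool.Agent.H68.GQ.vals ℝ C φ) P) →
    (∀ φ, KCNF w φ → Far ε w φ → MvPolynomial.eval (Pool.Agent.H68.GQ.vals ℝ C φ) P ≤ 0) →
    (2 : ℝ) ^ ((1 - ε) * n) ≤ s) ∧
  (∀ (F : Type) [Field F] (s : ℕ) (C : GCircuit (Fin m × Fin n × Bool) s M)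
    (P : MvPolynomial (Fin s ⊕ (Fin m × Fin n × Bool)) F), C.DepthLE d → P.totalDegree ≤ D →
    (∀ φ, KCNF w φ → Satisfiable φ → MvPolynomial.eval (Pool.Agent.H68.GQ.vals F C φ) P = 1) →
    (∀ φ, KCNF w φ → Far ε w φ → MvPolynomial.eval (Pool.Agent.H68.GQ.vals F C φ) P = 0) →
    (2 : ℝ) ^ ((1 - ε) * n) ≤ s) ∧
  (∃ (ι : Type) (_ : Fintype ι) (μ : ι → ℝ) (S U : ι → Fin m × Fin n × Bool → Bool),
    (∀ i, 0 ≤ μ i) ∧ ∑ i, μ i = 1 ∧
    (∀ i, KCNF w (S i) ∧ Satisfiable (S i) ∧ KCNF w (U i) ∧ Far ε w (U i)) ∧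
    ∀ (s : ℕ) (C : GCircuit (Fin m × Fin n × Bool) s M), C.DepthLE d →
      |prob μ (fun i => C.Holds (S i) C.out) - prob μ (fun i => C.Holds (U i) C.out)| ≤
        s * 2 ^ (-((1 - ε) * n))) ∧
  (c * w ≤ n → 1 ≤ M →
    ∃ (ι : Type) (_ : Fintype ι) (μ : ι → ℝ) (S U : ι → Fin m × Fin n × Bool → Bool),
      (∀ i, 0 ≤ μ i) ∧ ∑ i, μ i = 1 ∧
      (∀ i, KCNF w (S i) ∧ Satisfiable (S i) ∧ KCNF w (U i) ∧ Far ε w (U i)) ∧
      ∀ (s : ℕ) (F : Fin (2 ^ M) → GCircuit (Fin m × Fin n × Bool) s M)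
        (J : (Fin m × Fin n × Bool → Bool) → Finset (Fin (2 ^ M))),
        (s : ℝ) ≤ 2 ^ ((1 - ε) * n) → (∀ j, (F j).DepthLE d) →
        (∀ φ, ((J φ).card : ℝ) ≤ 2 ^ ((1 - ε) * w)) →
        1 - 1 / M ≤ prob μ (fun i => ∀ j ∈ J (U i),
          ((F j).Holds (S i) (F j).out ↔ (F j).Holds (U i) (F j).out)))

theorem prob_eq_ind {ι : Type} [Fintype ι] (μ : ι → ℝ) (E : ι → Prop) :
    prob μ E = ∑ i, μ i * ind (E i) := by
  unfold prob
  refine Finset.sum_congr rfl (fun i _ => ?_)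
  by_cases h : E i
  · rw [if_pos h, ind_true h, mul_one]
  · rw [if_neg h, ind_false h, mul_zero]

theorem finalf_t (h1 : T_FINALG) (h2 : T_FAM) : T_FINALF := by
  classical
  intro ε hε
  set ε' : ℝ := min ε 1 with hε'
  have hε'0 : 0 < ε' := lt_min hε one_pos
  have hε'1 : ε' ≤ 1 := min_le_right _ _
  have hε'ε : ε' ≤ ε := min_le_left _ _
  obtain ⟨c₁, hc₁⟩ := h1 ε hε
  obtain ⟨c₂, hc₂1, hc₂⟩ := h2 ε' hε'0 hε'1
  refine ⟨max c₁ c₂, ?_⟩
  filter_upwards [hc₁, hc₂] with n hn₁ hn₂ d D w m M hd hD hw hwn hm hM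
  have hpow : ∀ c x : ℕ, c * x ≤ max c₁ c₂ * (d + D) → M ^ (c * x) ≤ 2 ^ w := by
    intro c x hcx
    rcases Nat.eq_zero_or_pos M with h0 | h0
    · subst h0
      exact (pow_le_one₀ (le_refl 0) (by norm_num)).trans Nat.one_le_two_pow
    · exact (Nat.pow_le_pow_right h0 hcx).trans hM
  obtain ⟨A1, A2, ι, hι, μ, S, U, B1, B2, B3, B4⟩ := hn₁ d D w m M hd hD
    (le_trans (Nat.mul_le_mul_right _ (Nat.mul_le_mul_right _ (le_max_left _ _))) hw) hwn hm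
    (hpow c₁ (d + D) (Nat.mul_le_mul_right _ (le_max_left _ _)))
  refine ⟨A1, A2, ⟨ι, hι, μ, S, U, B1, B2, B3, ?_⟩, ?_⟩
  · intro s C hC
    have h3 := B4 s C hC
    have h4 : ∑ i, μ i * (Pool.Agent.H68.GQ.acc C (S i) - Pool.Agent.H68.GQ.acc C (U i)) =
        prob μ (fun i => C.Holds (S i) C.out) - prob μ (fun i => C.Holds (U i) C.out) := by
      unfold prob
      rw [← Finset.sum_sub_distrib]
      refine Finset.sum_congr rfl (fun i _ => ?_)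
      unfold Pool.Agent.H68.GQ.acc
      split_ifs <;> ring
    rw [← h4]
    exact h3
  · intro hcw hM1
    obtain ⟨Ω, hΩ, μ, φ₀, φ₁, D1, D2, D3, D4⟩ := hn₂ d w m hd
      (le_trans (Nat.mul_le_mul_right _ (Nat.mul_le_mul (le_max_right _ _) (Nat.le_add_right _ _))) hw)
      (le_trans (Nat.mul_le_mul_right _ (le_max_right _ _)) hcw) hm
    refine ⟨Ω, hΩ, μ, φ₁, φ₀, D1, D2,
      fun i => ⟨(D3 i).2.2.1, (D3 i).2.2.2, (D3 i).1, (D3 i).2.1.mono hε'ε⟩, ?_⟩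
    intro s F J hs hF hJ
    have h3 := D4 M (Fin (2 ^ M)) s F J hM1
      (hpow c₂ d (Nat.mul_le_mul (le_max_right _ _) (Nat.le_add_right _ _))) (by simp)
      (hs.trans (Real.rpow_le_rpow_of_exponent_le (by norm_num)
        (mul_le_mul_of_nonneg_right (by linarith) (Nat.cast_nonneg n)))) hF
      (fun φ => (hJ φ).trans (Real.rpow_le_rpow_of_exponent_le (by norm_num)
        (mul_le_mul_of_nonneg_right (by linarith) (Nat.cast_nonneg w))))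
    rw [prob_eq_ind]
    have h4 : ∀ i, μ i * ind (∀ j ∈ J (φ₀ i),
        ((F j).Holds (φ₁ i) (F j).out ↔ (F j).Holds (φ₀ i) (F j).out)) =
        μ i - μ i * ind (∃ j ∈ J (φ₀ i), ¬ (answersG F (φ₁ i) j ↔ answersG F (φ₀ i) j)) := by
      intro i
      by_cases h : ∃ j ∈ J (φ₀ i), ¬ (answersG F (φ₁ i) j ↔ answersG F (φ₀ i) j)
      · rw [ind_true h, ind_false (fun h' => ?_)]
        · ring
        · obtain ⟨j, hj, hn⟩ := h
          exact hn (h' j hj)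
      · rw [ind_false h, ind_true]
        · ring
        · push Not at h
          exact h
    simp only [h4, Finset.sum_sub_distrib, D2]
    linarith

theorem FINALF : T_FINALF := finalf_t FINALG FAM

end Pool.Agent.H68.GQ
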