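import Pool.Agent.H68.GQ.Targets
import Pool.Agent.H87.GP.PARG

/-!
# General gates: the parameters (PARGT)

The proof follows that of helper87 (module PARG).
-/

namespace Pool.Agent.H68.GQ

open Finset Filter Pool.Agent.H68.AC Pool.Agent.H75.QG Pool.Agent.H68.GP

/-- The first term. -/
theorem term1T (ε : ℝ) (hε : 0 < ε) (n k Q s ℓ t : ℕ) (hn : 1 ≤ n) (hkl : k * ℓ ≤ n) (hℓ : 6 ≤ ℓ)
    (ht : (t : ℝ) + 1 ≤ 2 * 2 ^ ℓ) :
    (2 : ℝ) ^ (k * Q) * (s * (3 / 2 * (16 * ((t : ℝ) + 1)) ^ (k * Q) / 2 ^ ((2 * Q + 4) * n + 1))) ≤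
      s * 2 ^ (-((1 - ε) * n)) / 4 := by
  have e1 : (2 : ℝ) ^ (k * Q) * (16 * ((t : ℝ) + 1)) ^ (k * Q) ≤ 2 ^ (2 * Q * n) := by
    rw [← mul_pow]
    calc (2 * (16 * ((t : ℝ) + 1))) ^ (k * Q) ≤ (2 ^ (2 * ℓ)) ^ (k * Q) := by
          apply pow_le_pow_left₀ (by positivity)
          have h1 : (64 : ℝ) ≤ 2 ^ ℓ := by
            calc (64 : ℝ) = 2 ^ 6 := by norm_num
              _ ≤ 2 ^ ℓ := pow_le_pow_right₀ (by norm_num) hℓ
          have h2 : (2 : ℝ) ^ (2 * ℓ) = 2 ^ ℓ * 2 ^ ℓ := by rw [two_mul, pow_add]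
          rw [h2]
          have h3 : (64 : ℝ) * 2 ^ ℓ ≤ 2 ^ ℓ * 2 ^ ℓ := mul_le_mul_of_nonneg_right h1 (by positivity)
          linarith
      _ = 2 ^ (2 * ℓ * (k * Q)) := by rw [← pow_mul]
      _ ≤ 2 ^ (2 * Q * n) := by
          apply pow_le_pow_right₀ (by norm_num)
          calc 2 * ℓ * (k * Q) = 2 * Q * (k * ℓ) := by ring
            _ ≤ 2 * Q * n := Nat.mul_le_mul_left _ hkl
  have e2 : (2 : ℝ) ^ ((2 * Q + 4) * n + 1) = 2 * (2 ^ (2 * Q * n) * (2 ^ n * 2 ^ n * 2 ^ n * 2 ^ n)) := by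
    have : (2 * Q + 4) * n + 1 = 2 * Q * n + (n + n + n + n) + 1 := by ring
    rw [this, pow_succ, pow_add, pow_add, pow_add, pow_add]
    ring
  have e3 : (2 : ℝ) ^ (-(n : ℝ)) ≤ 2 ^ (-((1 - ε) * n)) := by
    apply Real.rpow_le_rpow_of_exponent_le (by norm_num)
    have : 0 ≤ ε * (n : ℝ) := mul_nonneg hε.le (Nat.cast_nonneg n)
    linarith
  rw [Real.rpow_neg (by norm_num), Real.rpow_natCast] at e3
  have e4 : (2 : ℝ) ≤ 2 ^ n := by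
    calc (2 : ℝ) = 2 ^ 1 := by norm_num
      _ ≤ 2 ^ n := pow_le_pow_right₀ (by norm_num) hn
  set X : ℝ := 2 ^ n with hX
  have hX0 : (0 : ℝ) < X := by positivity
  set Y : ℝ := 2 ^ (2 * Q * n) with hY
  have hY0 : (0 : ℝ) < Y := by positivity
  have e5 : (2 : ℝ) ^ (k * Q) * (s * (3 / 2 * (16 * ((t : ℝ) + 1)) ^ (k * Q) /
      2 ^ ((2 * Q + 4) * n + 1))) =
      s * (3 / 2 * (2 ^ (k * Q) * (16 * ((t : ℝ) + 1)) ^ (k * Q)) / (2 * (Y * (X * X * X * X)))) := by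
    rw [e2]
    ring
  rw [e5]
  have e6 : 3 / 2 * ((2 : ℝ) ^ (k * Q) * (16 * ((t : ℝ) + 1)) ^ (k * Q)) / (2 * (Y * (X * X * X * X))) ≤
      X⁻¹ / 4 := by
    calc 3 / 2 * ((2 : ℝ) ^ (k * Q) * (16 * ((t : ℝ) + 1)) ^ (k * Q)) / (2 * (Y * (X * X * X * X)))
        ≤ 3 / 2 * Y / (2 * (Y * (X * X * X * X))) := by gcongr
      _ = 3 / (X * X * X) * (X⁻¹ / 4) := by
          field_simp
          norm_num
      _ ≤ 1 * (X⁻¹ / 4) := by
          refine mul_le_mul_of_nonneg_right ?_ (by positivity)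
          rw [div_le_one (by positivity)]
          have h1 := mul_le_mul e4 e4 (by norm_num) (by linarith)
          have h2 := mul_le_mul h1 e4 (by norm_num) (by positivity)
          linarith
      _ = _ := one_mul _
  calc (s : ℝ) * (3 / 2 * (2 ^ (k * Q) * (16 * ((t : ℝ) + 1)) ^ (k * Q)) / (2 * (Y * (X * X * X * X))))
      ≤ s * (X⁻¹ / 4) := mul_le_mul_of_nonneg_left e6 (Nat.cast_nonneg s)
    _ ≤ s * (2 ^ (-((1 - ε) * n)) / 4) := by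
        refine mul_le_mul_of_nonneg_left ?_ (Nat.cast_nonneg s)
        linarith
    _ = _ := by ring

/-- The second term. -/
theorem term2T (ε δ : ℝ) (hδ : 0 < δ) (n k Q s ℓ C' d : ℕ) (B : ℝ) (hk : 1 ≤ k) (hB0 : 0 < B)
    (hℓ9 : 9 ≤ ℓ) (hB : B ≤ (2 ^ ℓ) ^ 3) (hLQ : 16 * ((Q : ℝ) + 3) ≤ ε * ℓ)
    (hd : ((C' : ℝ) + 3) * (2 * Q) * (d * δ) ≤ ε / 8)
    (hkL : (1 - ε) * n ≤ (1 - 7 * ε / 16) * (k * ℓ)) :
    (2 : ℝ) ^ (k * Q) * (s * (3 / 2 * (1 / (1 / (2 ^ ℓ) ^ C' / B)) ^ (d * (2 * ⌊δ * k⌋₊ * Q)) /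
      ((2 ^ ℓ : ℕ) : ℝ) ^ (⌊(1 - ε / 4) * k⌋₊ + 1))) ≤ s * 2 ^ (-((1 - ε) * n)) / 4 := by
  set g : ℝ := 2 ^ ℓ with hg
  have hg512 : (512 : ℝ) ≤ g := by
    calc (512 : ℝ) = 2 ^ 9 := by norm_num
      _ ≤ 2 ^ ℓ := pow_le_pow_right₀ (by norm_num) hℓ9
  have hg0 : 0 < g := by linarith
  have hk0 : (0 : ℝ) < k := by exact_mod_cast hk
  have hk1 : (1 : ℝ) ≤ k := by exact_mod_cast hk
  have hL0 : (0 : ℝ) < ℓ := by
    have : (9 : ℝ) ≤ ℓ := by exact_mod_cast hℓ9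
    linarith
  have hN : ((2 ^ ℓ : ℕ) : ℝ) = g := by push_cast; rfl
  rw [hN]
  have hg2 : ∀ m : ℕ, g ^ m = (2 : ℝ) ^ ((ℓ : ℝ) * m) := by
    intro m
    rw [hg, ← pow_mul, ← Real.rpow_natCast]; push_cast; rfl
  obtain ⟨h, hh⟩ : ∃ h, h = ⌊δ * k⌋₊ := ⟨_, rfl⟩
  rw [← hh]
  have hhk : (h : ℝ) ≤ δ * k := by rw [hh]; exact Nat.floor_le (by positivity)
  have hq : 1 / (1 / g ^ C' / B) ≤ g ^ (C' + 3) := by
    have e0 : 1 / (1 / g ^ C' / B) = B * g ^ C' := by field_simp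
    rw [e0]
    calc B * g ^ C' ≤ g ^ 3 * g ^ C' := by gcongr
      _ = g ^ (C' + 3) := by ring
  have hA : (1 / (1 / g ^ C' / B)) ^ (d * (2 * h * Q)) ≤ (2 : ℝ) ^ ((ℓ : ℝ) * k * (ε / 8)) := by
    calc (1 / (1 / g ^ C' / B)) ^ (d * (2 * h * Q)) ≤ (g ^ (C' + 3)) ^ (d * (2 * h * Q)) := by
          gcongr
      _ = g ^ ((C' + 3) * (d * (2 * h * Q))) := by rw [← pow_mul]
      _ = (2 : ℝ) ^ ((ℓ : ℝ) * (((C' + 3) * (d * (2 * h * Q)) : ℕ) : ℝ)) := hg2 _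
      _ ≤ (2 : ℝ) ^ ((ℓ : ℝ) * k * (ε / 8)) := by
        apply Real.rpow_le_rpow_of_exponent_le (by norm_num)
        push_cast
        have e1 : ((C' : ℝ) + 3) * (d * (2 * h * Q)) ≤ (C' + 3) * (d * (2 * (δ * k) * Q)) := by
          gcongr
        have e2 : ((C' : ℝ) + 3) * (d * (2 * (δ * k) * Q)) = (C' + 3) * (2 * Q) * (d * δ) * k := by
          ring
        have e3 : ((C' : ℝ) + 3) * (2 * Q) * (d * δ) * k ≤ ε / 8 * k :=
          mul_le_mul_of_nonneg_right hd hk0.le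
        have e4 : (ℓ : ℝ) * (((C' : ℝ) + 3) * (d * (2 * h * Q))) ≤ ℓ * (ε / 8 * k) :=
          mul_le_mul_of_nonneg_left (by linarith) hL0.le
        linarith
  have hB6 : 6 * (2 : ℝ) ^ (k * Q) ≤ (2 : ℝ) ^ ((ℓ : ℝ) * k * (ε / 16)) := by
    calc 6 * (2 : ℝ) ^ (k * Q) ≤ 2 ^ 3 * 2 ^ (k * Q) := by
          have : (0 : ℝ) < 2 ^ (k * Q) := by positivity
          linarith
      _ = 2 ^ (3 + k * Q) := (pow_add _ _ _).symm
      _ = (2 : ℝ) ^ (((3 + k * Q : ℕ) : ℝ)) := (Real.rpow_natCast _ _).symm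
      _ ≤ _ := by
          apply Real.rpow_le_rpow_of_exponent_le (by norm_num)
          push_cast
          have := mul_le_mul_of_nonneg_left hLQ hk0.le
          linarith
  have hC : (2 : ℝ) ^ ((ℓ : ℝ) * k * (1 - ε / 4)) ≤ g ^ (⌊(1 - ε / 4) * k⌋₊ + 1) := by
    rw [hg2]
    apply Real.rpow_le_rpow_of_exponent_le (by norm_num)
    have e1 : (1 - ε / 4) * k < ⌊(1 - ε / 4) * k⌋₊ + 1 := Nat.lt_floor_add_one _
    push_cast
    calc (ℓ : ℝ) * k * (1 - ε / 4) = ℓ * ((1 - ε / 4) * k) := by ring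
      _ ≤ ℓ * (⌊(1 - ε / 4) * k⌋₊ + 1) := mul_le_mul_of_nonneg_left e1.le (by positivity)
  have hs0 : (0 : ℝ) ≤ s := Nat.cast_nonneg s
  calc (2 : ℝ) ^ (k * Q) * (s * (3 / 2 * (1 / (1 / g ^ C' / B)) ^ (d * (2 * h * Q)) /
      g ^ (⌊(1 - ε / 4) * k⌋₊ + 1)))
      ≤ (2 : ℝ) ^ (k * Q) * (s * (3 / 2 * (2 : ℝ) ^ ((ℓ : ℝ) * k * (ε / 8)) /
        (2 : ℝ) ^ ((ℓ : ℝ) * k * (1 - ε / 4)))) := by
        gcongr
    _ = s * ((6 * (2 : ℝ) ^ (k * Q)) * (2 : ℝ) ^ ((ℓ : ℝ) * k * (ε / 8)) /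
        (2 : ℝ) ^ ((ℓ : ℝ) * k * (1 - ε / 4))) / 4 := by ring
    _ ≤ s * ((2 : ℝ) ^ ((ℓ : ℝ) * k * (ε / 16)) * (2 : ℝ) ^ ((ℓ : ℝ) * k * (ε / 8)) /
        (2 : ℝ) ^ ((ℓ : ℝ) * k * (1 - ε / 4))) / 4 := by
        gcongr
    _ = s * (2 : ℝ) ^ ((ℓ : ℝ) * k * (ε / 16) + (ℓ : ℝ) * k * (ε / 8) -
        (ℓ : ℝ) * k * (1 - ε / 4)) / 4 := by
        rw [Real.rpow_sub (by norm_num), Real.rpow_add (by norm_num)]
    _ ≤ s * 2 ^ (-((1 - ε) * n)) / 4 := by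
        have e1 : (ℓ : ℝ) * k * (ε / 16) + (ℓ : ℝ) * k * (ε / 8) - (ℓ : ℝ) * k * (1 - ε / 4) ≤
            -((1 - ε) * n) := by
          linarith
        have e2 := Real.rpow_le_rpow_of_exponent_le (show (1 : ℝ) ≤ 2 by norm_num) e1
        gcongr

/-- PARGT: the parameters. -/
theorem pargt : T_PARGT := by
  intro ε θ κ c₀ Q a' C' K₀ hε hε1 hθ hθ1 hκ hc₀ hQ hC'
  obtain ⟨δ₁, hδ₁⟩ : ∃ δ₁ : ℝ, δ₁ = min κ (ε / (16 * Q * (C' + 3))) := ⟨_, rfl⟩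
  have hQ1 : (1 : ℝ) ≤ Q := by exact_mod_cast hQ
  have hC0 : (0 : ℝ) ≤ C' := Nat.cast_nonneg C'
  have hδ₁0 : 0 < δ₁ := by
    rw [hδ₁]
    exact lt_min hκ (by positivity)
  have hδ₁κ : δ₁ ≤ κ := by rw [hδ₁]; exact min_le_left _ _
  have hδ₁ε : δ₁ ≤ ε / (16 * Q * (C' + 3)) := by rw [hδ₁]; exact min_le_right _ _
  obtain ⟨K₁, hK₁⟩ := exists_nat_ge (c₀ / δ₁)
  obtain ⟨K₂, hK₂⟩ := exists_nat_ge (max ((1 + (a' : ℝ)) * (K₀ + 1 / δ₁ + 1)) (32 / ε))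
  have hK₂a : (1 + (a' : ℝ)) * (K₀ + 1 / δ₁ + 1) ≤ K₂ := (le_max_left _ _).trans hK₂
  have hK₂b : 32 / ε ≤ K₂ := (le_max_right _ _).trans hK₂
  obtain ⟨c₁, hc₁⟩ : ∃ c₁, c₁ = K₁ + 2 + 4 * a' + K₂ := ⟨_, rfl⟩
  have hc₁pos : 0 < c₁ := by omega
  have hc₁K : (K₂ : ℝ) ≤ c₁ := by exact_mod_cast (by omega : K₂ ≤ c₁)
  refine ⟨2 * c₁, ?_⟩
  obtain ⟨M, hM⟩ := exists_nat_ge (max (max (256 * (2 * (Q : ℝ) + 4)) (1 / θ))
    (max (16 * ((Q : ℝ) + 3) / ε) (8 * a' / ε)))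
  have hM9 : 256 * (2 * (Q : ℝ) + 4) ≤ M := ((le_max_left _ _).trans (le_max_left _ _)).trans hM
  have hMθ : 1 / θ ≤ M := ((le_max_right _ _).trans (le_max_left _ _)).trans hM
  have hMQ : 16 * ((Q : ℝ) + 3) / ε ≤ M := ((le_max_left _ _).trans (le_max_right _ _)).trans hM
  have hMa : 8 * a' / ε ≤ M := ((le_max_right _ _).trans (le_max_right _ _)).trans hM
  have hE1 : ∀ᶠ n : ℕ in atTop, 32 * (a' : ℝ) / ε ≤ (n : ℝ) :=
    tendsto_natCast_atTop_atTop.eventually_ge_atTop _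
  filter_upwards [eventually_ge_atTop (2 ^ M), hE1] with n hn2 hn3 d D w t hd1 hw hwn ht
  obtain ⟨L, hL⟩ : ∃ L, L = Nat.log 2 n := ⟨_, rfl⟩
  rw [← hL] at hw
  have hM9' : 9 ≤ M := by
    have : (9 : ℝ) ≤ M := by linarith
    exact_mod_cast this
  have hn512 : 512 ≤ n := by
    calc 512 = 2 ^ 9 := by norm_num
      _ ≤ 2 ^ M := Nat.pow_le_pow_right (by norm_num) hM9'
      _ ≤ n := hn2
  have hn0 : n ≠ 0 := by omega
  have hML : M ≤ L := by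
    rw [hL]
    exact Nat.le_log_of_pow_le (by norm_num) hn2
  have hng : n < 2 ^ (L + 1) := by rw [hL]; exact Nat.lt_pow_succ_log_self (by norm_num) n
  have hnR : (0 : ℝ) < n := by exact_mod_cast Nat.pos_of_ne_zero hn0
  -- the depth
  obtain ⟨u, hu⟩ : ∃ u, u = d + D := ⟨_, rfl⟩
  rw [← hu] at hw ht
  have hu1 : 1 ≤ u := by omega
  have huR : (1 : ℝ) ≤ u := by exact_mod_cast hu1
  have huR' : (u : ℝ) = d + D := by rw [hu]; push_cast; rfl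
  have hcu : 0 < c₁ * u := by positivity
  -- the block length
  obtain ⟨ℓ, hℓ⟩ : ∃ ℓ, ℓ = w / (c₁ * u) := ⟨_, rfl⟩
  have hℓw : ℓ * (c₁ * u) ≤ w := by rw [hℓ]; exact Nat.div_mul_le_self _ _
  have hwℓ : w < (ℓ + 1) * (c₁ * u) := by
    have := Nat.lt_div_mul_add (a := w) hcu
    rw [← hℓ] at this
    rw [add_mul, one_mul]
    exact this
  have hLℓ : L ≤ ℓ := by
    rw [hℓ, Nat.le_div_iff_mul_le hcu]
    calc L * (c₁ * u) ≤ 2 * c₁ * u * L := by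
          have : L * (c₁ * u) = c₁ * u * L := mul_comm _ _
          rw [this]
          apply Nat.mul_le_mul_right
          apply Nat.mul_le_mul_right
          omega
      _ ≤ w := hw
  have hMℓ : M ≤ ℓ := hML.trans hLℓ
  have hMℓR : (M : ℝ) ≤ ℓ := by exact_mod_cast hMℓ
  have hℓ9 : 9 ≤ ℓ := hM9'.trans hMℓ
  have hℓ9R : (9 : ℝ) ≤ ℓ := by exact_mod_cast hℓ9
  have htℓ : t ≤ 2 ^ ℓ := by
    by_contra hlt
    push Not at hlt
    have h1 : (2 ^ ℓ) ^ (2 * c₁ * u) ≤ t ^ (2 * c₁ * u) := Nat.pow_le_pow_left hlt.le _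
    have h2 : w < ℓ * (2 * c₁ * u) := by
      calc w < (ℓ + 1) * (c₁ * u) := hwℓ
        _ ≤ (ℓ + ℓ) * (c₁ * u) := Nat.mul_le_mul_right _ (by omega)
        _ = ℓ * (2 * c₁ * u) := by ring
    have h3 : 2 ^ w < (2 ^ ℓ) ^ (2 * c₁ * u) := by
      rw [← pow_mul]
      exact Nat.pow_lt_pow_right (by norm_num) h2
    omega
  have hℓnR : (ℓ : ℝ) * (c₁ * u) ≤ n := by
    have : ℓ * (c₁ * u) ≤ n := by omega
    exact_mod_cast this
  have hc₁R : (0 : ℝ) < c₁ := by exact_mod_cast hc₁pos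
  have ha0 : (0 : ℝ) ≤ a' := Nat.cast_nonneg a'
  -- the number of constraints
  obtain ⟨k, hk⟩ : ∃ k, k = (n - 1) / (ℓ + a') := ⟨_, rfl⟩
  have hLa : 0 < ℓ + a' := by omega
  have hkn : k * (ℓ + a') + 1 ≤ n := by
    have := Nat.div_mul_le_self (n - 1) (ℓ + a')
    rw [← hk] at this
    omega
  have hnk : n ≤ (k + 1) * (ℓ + a') := by
    have := Nat.lt_div_mul_add (a := n - 1) hLa
    rw [← hk] at this
    rw [add_mul, one_mul]
    omega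
  have hknR : (k : ℝ) * (ℓ + a') + 1 ≤ n := by exact_mod_cast hkn
  have hnkR : (n : ℝ) ≤ (k + 1) * (ℓ + a') := by exact_mod_cast hnk
  have hk0' : (0 : ℝ) ≤ k := Nat.cast_nonneg k
  have hku : (K₀ : ℝ) + u / δ₁ ≤ k := by
    -- `c₁ u ≤ (k + 1) (1 + a')`
    have h1 : (ℓ : ℝ) + a' ≤ ℓ * (1 + a') := by
      have : (a' : ℝ) * 1 ≤ a' * ℓ := mul_le_mul_of_nonneg_left (by linarith) ha0
      linarith
    have h2 : (n : ℝ) ≤ (k + 1) * (ℓ * (1 + a')) :=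
      hnkR.trans (mul_le_mul_of_nonneg_left h1 (by linarith))
    have h3 : (ℓ : ℝ) * (c₁ * u) ≤ ℓ * ((k + 1) * (1 + a')) := by
      refine hℓnR.trans (h2.trans (le_of_eq ?_))
      ring
    have h4 : (c₁ : ℝ) * u ≤ (k + 1) * (1 + a') := le_of_mul_le_mul_left h3 (by linarith)
    have h5 : (1 + (a' : ℝ)) * (K₀ + 1 / δ₁ + 1) * u ≤ (k + 1) * (1 + a') := by
      refine le_trans ?_ h4
      apply mul_le_mul_of_nonneg_right _ (by linarith)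
      exact hK₂a.trans hc₁K
    have h6 : ((K₀ : ℝ) + 1 / δ₁ + 1) * u ≤ k + 1 := by
      have h7 : (1 + (a' : ℝ)) * (((K₀ : ℝ) + 1 / δ₁ + 1) * u) ≤ (1 + a') * (k + 1) := by linarith
      exact le_of_mul_le_mul_left h7 (by linarith)
    have h8 : (K₀ : ℝ) * 1 ≤ K₀ * u := mul_le_mul_of_nonneg_left huR (Nat.cast_nonneg _)
    have h9 : ((K₀ : ℝ) + 1 / δ₁ + 1) * u = K₀ * u + u / δ₁ + u := by ring
    linarith
  have hudk : (u : ℝ) ≤ δ₁ * k := by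
    have h1 : (0 : ℝ) ≤ K₀ := Nat.cast_nonneg _
    have h2 : (u : ℝ) / δ₁ ≤ k := by linarith
    rw [div_le_iff₀ hδ₁0] at h2
    linarith
  have hK₀k : K₀ ≤ k := by
    have h1 : (0 : ℝ) ≤ u / δ₁ := by positivity
    have : (K₀ : ℝ) ≤ k := by linarith
    exact_mod_cast this
  have hk1 : 1 ≤ k := by
    by_contra hc
    have h0 : k = 0 := by omega
    rw [h0] at hudk
    simp only [Nat.cast_zero, mul_zero] at hudk
    linarith
  have hk1R : (1 : ℝ) ≤ k := by exact_mod_cast hk1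
  have hkLn : k * ℓ ≤ n := by
    have : k * (ℓ + a') = k * ℓ + k * a' := Nat.mul_add _ _ _
    omega
  have hkL : (k : ℝ) * ℓ ≤ n := by exact_mod_cast hkLn
  -- delta
  obtain ⟨δ, hδ⟩ : ∃ δ, δ = δ₁ / u := ⟨_, rfl⟩
  have hu0 : (0 : ℝ) < u := by linarith
  have hδ0 : 0 < δ := by rw [hδ]; positivity
  have hδu : δ * (u : ℝ) = δ₁ := by
    rw [hδ]
    exact div_mul_cancel₀ _ (by linarith)
  have hD0 : (0 : ℝ) ≤ D := Nat.cast_nonneg D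
  have hd0 : (0 : ℝ) ≤ d := Nat.cast_nonneg d
  have hδk : 1 ≤ δ * k := by
    have h1 : (u : ℝ) * (δ * k) = δ₁ * k := by rw [← hδu]; ring
    by_contra hc
    push Not at hc
    have : (u : ℝ) * (δ * k) < (u : ℝ) * 1 := mul_lt_mul_of_pos_left hc hu0
    linarith
  obtain ⟨r, hr⟩ : ∃ r : ℕ, r = ⌈c₀ / δ⌉₊ := ⟨_, rfl⟩
  have hr1 : c₀ ≤ δ * r := by
    have : c₀ / δ ≤ r := by rw [hr]; exact Nat.le_ceil _
    rw [div_le_iff₀ hδ0] at this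
    linarith
  have hr2 : r ≤ K₁ * u + 1 := by
    have e0 : (r : ℝ) < c₀ / δ + 1 := by
      rw [hr]; exact Nat.ceil_lt_add_one (by positivity)
    have e1 : c₀ / δ ≤ K₁ * u := by
      have : c₀ / δ = c₀ / δ₁ * u := by
        rw [hδ]
        field_simp
      rw [this]
      gcongr
    have e2 : (r : ℝ) < ((K₁ * u + 1 + 1 : ℕ) : ℝ) := by push_cast; linarith
    have e3 : r < K₁ * u + 1 + 1 := by exact_mod_cast e2
    omega
  -- p and q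
  have hg512 : (512 : ℝ) ≤ 2 ^ ℓ := by
    calc (512 : ℝ) = 2 ^ 9 := by norm_num
      _ ≤ 2 ^ ℓ := pow_le_pow_right₀ (by norm_num) hℓ9
  have hC1 : 1 ≤ C' := by
    by_contra hc
    have : C' = 0 := by omega
    rw [this] at hC'
    norm_num at hC'
  have hgC : (2 : ℝ) ≤ (2 ^ ℓ) ^ C' := by
    calc (2 : ℝ) ≤ 2 ^ ℓ := by linarith
      _ = (2 ^ ℓ) ^ 1 := (pow_one _).symm
      _ ≤ (2 ^ ℓ) ^ C' := pow_le_pow_right₀ (by linarith) hC1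
  have hp2 : 1 / ((2 : ℝ) ^ ℓ) ^ C' ≤ 1 / 2 := one_div_le_one_div_of_le (by norm_num) hgC
  have hεL : 16 * ((Q : ℝ) + 3) ≤ ε * ℓ := by
    rw [div_le_iff₀ hε] at hMQ
    have := mul_le_mul_of_nonneg_right hMℓR hε.le
    linarith
  have hεL' : ε * ℓ ≤ ℓ := mul_le_of_le_one_left (by linarith) hε1
  have htR : (t : ℝ) ≤ 2 ^ ℓ := by exact_mod_cast htℓ
  have ht0 : (0 : ℝ) ≤ t := Nat.cast_nonneg t
  have hnℓR : (n : ℝ) ≤ 2 * 2 ^ ℓ := by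
    have h1 : n ≤ 2 ^ (ℓ + 1) := hng.le.trans (Nat.pow_le_pow_right (by norm_num) (by omega))
    have h2 : (n : ℝ) ≤ 2 ^ (ℓ + 1) := by exact_mod_cast h1
    rw [pow_succ] at h2
    linarith
  obtain ⟨W, hW⟩ : ∃ W : ℕ, W = (2 * Q + 4) * n := ⟨_, rfl⟩
  have hWR : (W : ℝ) = (2 * Q + 4) * n := by rw [hW]; push_cast; ring
  have hW1 : 1 ≤ W := by
    rw [hW]
    exact Nat.mul_pos (by omega) (by omega)
  have hW1R : (1 : ℝ) ≤ W := by exact_mod_cast hW1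
  obtain ⟨B, hB⟩ : ∃ B : ℝ, B = 64 * ((t : ℝ) + 1) * W := ⟨_, rfl⟩
  have hB1 : (1 : ℝ) ≤ B := by
    rw [hB]
    have : (1 : ℝ) ≤ 64 * ((t : ℝ) + 1) := by linarith
    nlinarith
  have hMg : (M : ℝ) ≤ 2 ^ ℓ := by
    have h1 : (ℓ : ℝ) ≤ 2 ^ ℓ := by exact_mod_cast (Nat.lt_two_pow_self (n := ℓ)).le
    linarith
  have hB3 : B ≤ (2 ^ ℓ) ^ 3 := by
    obtain ⟨g, hg⟩ : ∃ g : ℝ, g = 2 ^ ℓ := ⟨_, rfl⟩
    rw [← hg] at hg512 htR hnℓR hMg ⊢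
    rw [hB, hWR]
    have h1 : (t : ℝ) + 1 ≤ 2 * g := by linarith
    have h2 : 256 * (2 * (Q : ℝ) + 4) ≤ g := hM9.trans hMg
    calc 64 * ((t : ℝ) + 1) * ((2 * Q + 4) * n) ≤ 64 * (2 * g) * ((2 * Q + 4) * (2 * g)) := by
          gcongr
      _ = 256 * (2 * (Q : ℝ) + 4) * (g * g) := by ring
      _ ≤ g * (g * g) := mul_le_mul_of_nonneg_right h2 (by positivity)
      _ = g ^ 3 := by ring
  have hB0 : 0 < B := by linarith
  refine ⟨k, ℓ, W, r, δ, 1 / (2 ^ ℓ) ^ C', 1 / (2 ^ ℓ) ^ C' / B, hK₀k, hk1, ?_, hkn, hδ0,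
    hr1, ?_, ?_, ?_, hW1, by positivity, hp2, by positivity, ?_, ?_, ?_, ?_⟩
  · have h1 : 1 ≤ θ * ℓ := by
      rw [div_le_iff₀ hθ] at hMθ
      have := mul_le_mul_of_nonneg_right hMℓR hθ.le
      linarith
    calc (k : ℝ) = k * 1 := (mul_one _).symm
      _ ≤ k * (θ * ℓ) := mul_le_mul_of_nonneg_left h1 hk0'
      _ = θ * (k * ℓ) := by ring
      _ ≤ θ * n := mul_le_mul_of_nonneg_left hkL hθ.le
  · refine le_trans ?_ hℓw
    calc (r + 1) * ℓ + 4 * a' ≤ (K₁ * u + 1 + 1) * ℓ + 4 * a' := by gcongr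
      _ ≤ (K₁ * u + 2 * u) * ℓ + 4 * a' * (u * ℓ) := by
          have e2 : 1 ≤ u * ℓ := Nat.one_le_iff_ne_zero.2 (by positivity)
          have e3 : 4 * a' * 1 ≤ 4 * a' * (u * ℓ) := Nat.mul_le_mul_left _ e2
          have e4 : (K₁ * u + 1 + 1) * ℓ ≤ (K₁ * u + 2 * u) * ℓ :=
            Nat.mul_le_mul_right ℓ (by omega)
          omega
      _ = (K₁ + 2 + 4 * a') * (u * ℓ) := by ring
      _ ≤ c₁ * (u * ℓ) := Nat.mul_le_mul_right _ (by omega)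
      _ = ℓ * (c₁ * u) := by ring
  · exact Nat.le_floor (by exact_mod_cast hδk)
  · apply Nat.le_floor
    push_cast
    have h1 : (⌊δ * k⌋₊ : ℝ) ≤ δ * k := Nat.floor_le (by positivity)
    calc (D : ℝ) * ⌊δ * k⌋₊ ≤ D * (δ * k) := mul_le_mul_of_nonneg_left h1 hD0
      _ ≤ u * (δ * k) := by
          apply mul_le_mul_of_nonneg_right _ (by positivity)
          rw [huR']
          linarith
      _ = δ₁ * k := by rw [← hδu]; ring
      _ ≤ κ * k := mul_le_mul_of_nonneg_right hδ₁κ hk0'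
  · have : 1 / ((2 : ℝ) ^ ℓ) ^ C' / B ≤ 1 / ((2 : ℝ) ^ ℓ) ^ C' :=
      div_le_self (by positivity) hB1
    linarith
  · apply le_of_eq
    rw [← hB]
    field_simp
  · -- the probability of large random inputs
    obtain ⟨g, hg⟩ : ∃ g : ℝ, g = 2 ^ ℓ := ⟨_, rfl⟩
    rw [← hg] at hg512 hMg ⊢
    have hg0 : 0 < g := by linarith
    have h2k : 2 * k ≤ C' * (⌊θ * k⌋₊ + 1) := by
      have e1 : θ * k < ⌊θ * k⌋₊ + 1 := Nat.lt_floor_add_one _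
      have e2 : 2 * (k : ℝ) ≤ C' * (⌊θ * k⌋₊ + 1) := by
        calc 2 * (k : ℝ) ≤ C' * θ * k := mul_le_mul_of_nonneg_right hC' hk0'
          _ = C' * (θ * k) := by ring
          _ ≤ C' * (⌊θ * k⌋₊ + 1) := mul_le_mul_of_nonneg_left e1.le hC0
      exact_mod_cast e2
    have e3 : (1 / g ^ C') ^ (⌊θ * k⌋₊ + 1) ≤ 1 / g ^ (2 * k) := by
      rw [one_div_pow, ← pow_mul]
      exact one_div_le_one_div_of_le (by positivity) (pow_le_pow_right₀ (by linarith) h2k)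
    have e4 : 4 * (Q : ℝ) ≤ g := by linarith
    calc g ^ k * (Q : ℝ) ^ k * 2 ^ k * (1 / g ^ C') ^ (⌊θ * k⌋₊ + 1)
        ≤ g ^ k * (Q : ℝ) ^ k * 2 ^ k * (1 / g ^ (2 * k)) := by gcongr
      _ = (2 * Q / g) ^ k := by
          rw [div_pow, mul_pow, mul_comm 2 k, pow_mul g k 2]
          field_simp
      _ ≤ (1 / 2) ^ k := by
          apply pow_le_pow_left₀ (by positivity)
          rw [div_le_div_iff₀ hg0 (by norm_num)]
          linarith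
      _ ≤ (1 / 2) ^ 1 := pow_le_pow_of_le_one (by norm_num) (by norm_num) hk1
      _ = 1 / 2 := pow_one _
  · intro s
    have hkLb : (1 - ε / 4) * n ≤ k * ℓ := by
      have h1 : (ℓ : ℝ) + a' ≤ ε / 16 * n := by
        have h2 : (ℓ : ℝ) ≤ ε / 32 * n := by
          -- `ℓ c₁ ≤ n`
          have h3 : (ℓ : ℝ) * (32 / ε) ≤ n := by
            refine le_trans ?_ hℓnR
            apply mul_le_mul_of_nonneg_left _ (by linarith)
            calc 32 / ε ≤ c₁ := hK₂b.trans hc₁K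
              _ = c₁ * 1 := (mul_one _).symm
              _ ≤ c₁ * u := mul_le_mul_of_nonneg_left huR hc₁R.le
          have h4 : (ℓ : ℝ) = ε / 32 * (ℓ * (32 / ε)) := by field_simp
          rw [h4]
          exact mul_le_mul_of_nonneg_left h3 (by positivity)
        have h5 : (a' : ℝ) ≤ ε / 32 * n := by
          rw [div_le_iff₀ hε] at hn3
          linarith
        linarith
      have h2 : (k : ℝ) * a' ≤ ε / 8 * n := by
        rw [div_le_iff₀ hε] at hMa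
        have h3 : 8 * (a' : ℝ) ≤ ℓ * ε := hMa.trans (mul_le_mul_of_nonneg_right hMℓR hε.le)
        have h4 := mul_le_mul_of_nonneg_left h3 hk0'
        have h5 := mul_le_mul_of_nonneg_left hkL hε.le
        linarith
      have h3 : (k : ℝ) * ℓ + k * a' + (ℓ + a') ≥ n := by
        linarith
      have h4 := mul_pos hε hnR
      linarith
    have hfin : (1 - ε) * n ≤ (1 - 7 * ε / 16) * (k * ℓ) := by
      have h1 : (1 - 7 * ε / 16) * ((1 - ε / 4) * n) ≤ (1 - 7 * ε / 16) * (k * ℓ) :=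
        mul_le_mul_of_nonneg_left hkLb (by linarith)
      refine le_trans ?_ h1
      rw [← mul_assoc]
      refine mul_le_mul_of_nonneg_right ?_ hnR.le
      have h2 := sq_nonneg ε
      linarith
    have hdδ : (d : ℝ) * δ ≤ δ₁ := by
      rw [← hδu, huR']
      have := mul_nonneg hδ0.le hD0
      linarith
    have hd8 : ((C' : ℝ) + 3) * (2 * Q) * (d * δ) ≤ ε / 8 := by
      calc ((C' : ℝ) + 3) * (2 * Q) * (d * δ) ≤ (C' + 3) * (2 * Q) * (ε / (16 * Q * (C' + 3))) := by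
            gcongr
            exact hdδ.trans hδ₁ε
        _ = ε / 8 := by
            have : (Q : ℝ) ≠ 0 := by linarith
            have : (C' : ℝ) + 3 ≠ 0 := by linarith
            field_simp
            norm_num
    have h1 := term1T ε hε n k Q s ℓ t (by omega) hkLn (by omega) (by linarith)
    have h2 := term2T ε δ hδ0 n k Q s ℓ C' d B hk1 hB0 hℓ9 hB3 hεL hd8 hfin
    unfold HLG
    rw [← hW] at h1
    have h3 := add_le_add h1 h2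
    linarith

end Pool.Agent.H68.GQ
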