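import Pool.Agent.H68.GQ.Star
import Pool.Agent.H68.GQ.Pargt
import Pool.Agent.H68.GP.Main

/-!
# General gates: consequences of STAR
-/

namespace Pool.Agent.H68.GQ

open Finset Filter Pool.Agent.H68.AC Pool.Agent.H75.QG Pool.Agent.H68.GP

theorem STARG : T_STARG :=
  starg_t Pool.Agent.H86.GP.t_JH Pool.Agent.H86.GP.t_JS Pool.Agent.H14.GP.surj Pool.Agent.H73.GP.UNX
    Pool.Agent.H86.GP.t_COV Pool.Agent.H14.GP.gzp Pool.Agent.H14.GP.sem
    (Pool.Agent.H73.GP.ENS Pool.Agent.H34.GP.T_ENG_holds) pargt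

/-- The theorem. -/
def T_FINALG : Prop := ∀ ε : ℝ, 0 < ε → ∃ c : ℕ, ∀ᶠ n : ℕ in atTop, ∀ d D w m M : ℕ, 1 ≤ d → 1 ≤ D →
  c * (d + D) * Nat.log 2 n ≤ w → w < n → n * 2 ^ w ≤ m → M ^ (c * (d + D)) ≤ 2 ^ w →
  (∀ (s : ℕ) (C : GCircuit (Fin m × Fin n × Bool) s M)
    (P : MvPolynomial (Fin s ⊕ (Fin m × Fin n × Bool)) ℝ), C.DepthLE d → P.totalDegree ≤ D →
    (∀ φ, KCNF w φ → Satisfiable φ → 0 < MvPolynomial.eval (Pool.Agent.H68.GQ.vals ℝ C φ) P) →
    (∀ φ, KCNF w φ → Far ε w φ → MvPolynomial.eval (Pool.Agent.H68.GQ.vals ℝ C φ) P ≤ 0) →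
    (2 : ℝ) ^ ((1 - ε) * n) ≤ s) ∧
  (∀ (F : Type) [Field F] (s : ℕ) (C : GCircuit (Fin m × Fin n × Bool) s M)
    (P : MvPolynomial (Fin s ⊕ (Fin m × Fin n × Bool)) F), C.DepthLE d → P.totalDegree ≤ D →
    (∀ φ, KCNF w φ → Satisfiable φ → MvPolynomial.eval (Pool.Agent.H68.GQ.vals F C φ) P = 1) →
    (∀ φ, KCNF w φ → Far ε w φ → MvPolynomial.eval (Pool.Agent.H68.GQ.vals F C φ) P = 0) →
    (2 : ℝ) ^ ((1 - ε) * n) ≤ s) ∧
  ∃ (ι : Type) (_ : Fintype ι) (μ : ι → ℝ) (S U : ι → Fin m × Fin n × Bool → Bool),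
    (∀ i, 0 ≤ μ i) ∧ ∑ i, μ i = 1 ∧
    (∀ i, KCNF w (S i) ∧ Satisfiable (S i) ∧ KCNF w (U i) ∧ Far ε w (U i)) ∧
    ∀ (s : ℕ) (C : GCircuit (Fin m × Fin n × Bool) s M), C.DepthLE d →
      |∑ i, μ i * (Pool.Agent.H68.GQ.acc C (S i) - Pool.Agent.H68.GQ.acc C (U i))| ≤ s * 2 ^ (-((1 - ε) * n))

theorem finalg_t (hSTAR : T_STARG) : T_FINALG := by
  classical
  intro ε hε
  set ε' : ℝ := min ε 1 with hε'
  have hε'0 : 0 < ε' := lt_min hε one_pos
  have hε'1 : ε' ≤ 1 := min_le_right _ _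
  have hε'ε : ε' ≤ ε := min_le_left _ _
  obtain ⟨c, hc⟩ := hSTAR ε' hε'0 hε'1
  refine ⟨c, ?_⟩
  filter_upwards [hc] with n hn d D w m M hd hD hw hwn hm hM
  have hpow : (2 : ℝ) ^ ((1 - ε) * n) ≤ 2 ^ ((1 - ε') * n) := by
    apply Real.rpow_le_rpow_of_exponent_le (by norm_num)
    apply mul_le_mul_of_nonneg_right (by linarith) (Nat.cast_nonneg n)
  have hpow' : (2 : ℝ) ^ (-((1 - ε') * n)) ≤ 2 ^ (-((1 - ε) * n)) := by
    apply Real.rpow_le_rpow_of_exponent_le (by norm_num)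
    apply neg_le_neg
    apply mul_le_mul_of_nonneg_right (by linarith) (Nat.cast_nonneg n)
  refine ⟨?_, ?_, ?_⟩
  · intro s C P hC hP hPS hPU
    by_contra hlt
    push Not at hlt
    obtain ⟨Ω, B, _, _, μ, S, U, hμ, hμ1, ⟨j, hB⟩, hSU, hF⟩ := hn d D w m M hd hw hwn hm hM 2 (Or.inl rfl)
    obtain ⟨ω, hω⟩ := exists_fooled μ (fun ω => FooledG C D (S ω) (U ω)) hμ1
      (lt_one_of (lt_of_lt_of_le hlt hpow)) (hF s C hC)
    have h1 := hω ℝ P hP
    haveI : Nonempty B := by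
      rw [← Fintype.card_pos_iff, hB]
      positivity
    have h2 : 0 < ∑ b, MvPolynomial.eval (Pool.Agent.H68.GQ.vals ℝ C (S ω b)) P :=
      Finset.sum_pos (fun b _ => hPS _ (hSU ω b).1 (hSU ω b).2.1) univ_nonempty
    have h3 : ∑ b, MvPolynomial.eval (Pool.Agent.H68.GQ.vals ℝ C (U ω b)) P ≤ 0 :=
      Finset.sum_nonpos (fun b _ => hPU _ (hSU ω b).2.2.1 ((hSU ω b).2.2.2.mono hε'ε))
    rw [h1] at h2
    linarith
  · intro F _ s C P hC hP hPS hPU
    by_contra hlt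
    push Not at hlt
    obtain ⟨t, ht, htF⟩ : ∃ t : ℕ, (t = 2 ∨ t = 3) ∧ (t : F) ≠ 0 := by
      by_cases h2 : ((2 : ℕ) : F) = 0
      · refine ⟨3, Or.inr rfl, ?_⟩
        have h3 : ((3 : ℕ) : F) = ((2 : ℕ) : F) + 1 := by norm_num
        rw [h3, h2, zero_add]
        exact one_ne_zero
      · exact ⟨2, Or.inl rfl, h2⟩
    obtain ⟨Ω, B, _, _, μ, S, U, hμ, hμ1, ⟨j, hB⟩, hSU, hF⟩ := hn d D w m M hd hw hwn hm hM t ht
    obtain ⟨ω, hω⟩ := exists_fooled μ (fun ω => FooledG C D (S ω) (U ω)) hμ1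
      (lt_one_of (lt_of_lt_of_le hlt hpow)) (hF s C hC)
    have h1 := hω F P hP
    have h2 : ∑ b, MvPolynomial.eval (Pool.Agent.H68.GQ.vals F C (S ω b)) P = (Fintype.card B : F) := by
      rw [Finset.sum_congr rfl (fun b _ => hPS _ (hSU ω b).1 (hSU ω b).2.1)]
      simp
    have h3 : ∑ b, MvPolynomial.eval (Pool.Agent.H68.GQ.vals F C (U ω b)) P = 0 :=
      Finset.sum_eq_zero (fun b _ => hPU _ (hSU ω b).2.2.1 ((hSU ω b).2.2.2.mono hε'ε))
    rw [h2, h3, hB] at h1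
    push_cast at h1
    exact pow_ne_zero j htF h1
  · obtain ⟨Ω, B, iΩ, iB, μ, S, U, hμ, hμ1, ⟨j, hB⟩, hSU, hF⟩ :=
      hn d D w m M hd hw hwn hm hM 2 (Or.inl rfl)
    have hB0 : (0 : ℝ) < Fintype.card B := by
      rw [hB]
      positivity
    refine ⟨Ω × B, inferInstance, fun i => μ i.1 / Fintype.card B, fun i => S i.1 i.2,
      fun i => U i.1 i.2, fun i => div_nonneg (hμ _) hB0.le, ?_, ?_, ?_⟩
    · rw [Fintype.sum_prod_type]
      simp only [Finset.sum_const, card_univ, nsmul_eq_mul]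
      have : ∀ ω : Ω, (Fintype.card B : ℝ) * (μ ω / Fintype.card B) = μ ω := by
        intro ω
        field_simp
      simp only [this]
      exact hμ1
    · rintro ⟨ω, b⟩
      exact ⟨(hSU ω b).1, (hSU ω b).2.1, (hSU ω b).2.2.1, (hSU ω b).2.2.2.mono hε'ε⟩
    · intro s C hC
      have hacc : ∀ y, Pool.Agent.H68.GQ.acc C y = MvPolynomial.eval (Pool.Agent.H68.GQ.vals ℝ C y)
          (MvPolynomial.X (Sum.inl C.out) : MvPolynomial (Fin s ⊕ (Fin m × Fin n × Bool)) ℝ) := by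
        intro y
        rw [MvPolynomial.eval_X]
        simp only [Pool.Agent.H68.GQ.acc, Pool.Agent.H68.GQ.vals, Sum.elim_inl]
      have h01 : ∀ y, 0 ≤ Pool.Agent.H68.GQ.acc C y ∧ Pool.Agent.H68.GQ.acc C y ≤ 1 := by
        intro y
        unfold Pool.Agent.H68.GQ.acc
        split_ifs <;> norm_num
      have h1 : ∑ i : Ω × B, μ i.1 / Fintype.card B * (Pool.Agent.H68.GQ.acc C (S i.1 i.2) - Pool.Agent.H68.GQ.acc C (U i.1 i.2)) =
          ∑ ω, μ ω * ((∑ b, (Pool.Agent.H68.GQ.acc C (S ω b) - Pool.Agent.H68.GQ.acc C (U ω b))) / Fintype.card B) := by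
        rw [Fintype.sum_prod_type]
        refine Finset.sum_congr rfl (fun ω _ => ?_)
        simp only
        rw [← Finset.mul_sum]
        ring
      have h2 : ∀ ω, |μ ω * ((∑ b, (Pool.Agent.H68.GQ.acc C (S ω b) - Pool.Agent.H68.GQ.acc C (U ω b))) / Fintype.card B)| ≤
          μ ω * ind (¬ FooledG C D (S ω) (U ω)) := by
        intro ω
        rw [abs_mul, abs_of_nonneg (hμ ω)]
        apply mul_le_mul_of_nonneg_left _ (hμ ω)
        by_cases hfo : FooledG C D (S ω) (U ω)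
        · have h3 := hfo ℝ (MvPolynomial.X (Sum.inl C.out)) (by
            rw [MvPolynomial.totalDegree_X]
            exact hD)
          have h4 : ∑ b, (Pool.Agent.H68.GQ.acc C (S ω b) - Pool.Agent.H68.GQ.acc C (U ω b)) = 0 := by
            rw [Finset.sum_sub_distrib]
            simp only [hacc]
            rw [h3, sub_self]
          rw [h4, zero_div, abs_zero]
          exact ind_nonneg _
        · rw [ind_true hfo, abs_div, abs_of_pos hB0, div_le_one hB0]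
          refine (Finset.abs_sum_le_sum_abs _ _).trans ?_
          calc ∑ b, |Pool.Agent.H68.GQ.acc C (S ω b) - Pool.Agent.H68.GQ.acc C (U ω b)| ≤ ∑ _b : B, (1 : ℝ) := by
                refine Finset.sum_le_sum (fun b _ => ?_)
                rw [abs_le]
                have ha := h01 (S ω b)
                have hb := h01 (U ω b)
                constructor <;> linarith
            _ = Fintype.card B := by simp
      rw [h1]
      refine (Finset.abs_sum_le_sum_abs _ _).trans ((Finset.sum_le_sum (fun ω _ => h2 ω)).trans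
        ((hF s C hC).trans ?_))
      exact mul_le_mul_of_nonneg_left hpow' (Nat.cast_nonneg s)

theorem FINALG : T_FINALG := finalg_t STARG

end Pool.Agent.H68.GQ
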