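import Pool.Agent.H68.GP.Star
import Pool.Agent.H68.GQ.Enc

/-!
# General gates: assembly (STAR)
-/

namespace Pool.Agent.H68.GQ

open Finset Filter Pool.Agent.H68.AC Pool.Agent.H75.QG Pool.Agent.H68.GP

/-- The circuit is fooled at the pair of families `S`, `U`: all polynomials of degree at most `D` of the
gates and inputs have the same sum. -/
def FooledG {I B : Type} [Fintype B] {s M : ℕ} (C : GCircuit I s M) (D : ℕ) (S U : B → I → Bool) : Prop :=
  ∀ (F : Type) [CommRing F] (P : MvPolynomial (Fin s ⊕ I) F), P.totalDegree ≤ D →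
    ∑ b, MvPolynomial.eval (Pool.Agent.H68.GQ.vals F C (S b)) P =
      ∑ b, MvPolynomial.eval (Pool.Agent.H68.GQ.vals F C (U b)) P

/-- In a good outcome the circuit is fooled. -/
theorem fooled_of_good (hJH : T_JH) (hJS : T_JS) {m n k r n' t s d D β h h' M : ℕ} {A G : Type}
    [DecidableEq A] [Fintype A] [DecidableEq G] [Fintype G] [AddCommGroup G]
    (C : GCircuit (Fin m × Fin n × Bool) s M) (σ : Fin m × Fin n × Bool → Bool)
    (inc : Fin m × Fin n × Bool → Inp (VL k r A G)) (C' : CktG (VL k r A G) s d M)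
    (hC' : ∀ y g, (C'.val y g = true ↔ C.Holds (enc σ inc y) g))
    (e : Fin k → Fin r → Fin k) (f : Fin k → Fin t → Fin n') (x : Fin k → A)
    (R : Fin d → PA (VL k r A G)) (z : VL k r A G → Bool) (u₀ : Fin k → G) (hE : Expd e β h)
    (hh : 1 ≤ h) (hDh : D * h ≤ h') (hS : Surj G f h') (hG : GoodLG C' e x R β h) :
    FooledG C D (fun b : Fin n' → G => enc σ inc (yL e x (lin f b) (fun v => (fd R d v).getD (z v))))
      (fun b => enc σ inc (yL e x (u₀ + lin f b) (fun v => (fd R d v).getD (z v)))) := by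
  classical
  intro F _ P hP
  set z' : VL k r A G → Bool := fun v => (fd R d v).getD (z v) with hz'
  set v : Fin s ⊕ (Fin m × Fin n × Bool) → (Fin k → G) → F :=
    fun i u => Pool.Agent.H68.GQ.vals F C (enc σ inc (yL e x u z')) i with hv
  have hvJ : ∀ i, v i ∈ JH F k G h := by
    intro i
    rcases i with g | i
    · have h1 := tjg F C' e x R z β h hE hh hG g
      rw [← hz'] at h1
      convert h1 using 1
      funext u
      simp only [hv, Pool.Agent.H68.GQ.vals, Sum.elim_inl, ← hC']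
    · refine (hJH F k G).1 1 h hh ?_
      cases hi : inc i with
      | const c =>
        refine Submodule.subset_span ⟨∅, by simp, ?_⟩
        intro u u' _
        simp only [hv, Pool.Agent.H68.GQ.vals, Sum.elim_inr, enc, hi, Inp.val]
      | var v' =>
        refine Submodule.subset_span ⟨{v'.1.1}, by simp, ?_⟩
        intro u u' huu
        have h3 : yL e x u z' v' = yL e x u' z' v' := by
          simp only [yL]
          rw [huu v'.1.1 (mem_singleton_self _)]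
        simp only [hv, Pool.Agent.H68.GQ.vals, Sum.elim_inr, enc, hi, Inp.val, h3]
  have h4 := (hJH F k G).2.2 _ v h D P hvJ hP
  have h5 := (hJH F k G).1 _ _ hDh h4
  exact hJS F k n' t h' G f u₀ _ hS h5

/-- The probability that the circuit is not fooled. -/
theorem bad_core (hJH : T_JH) (hJS : T_JS) {m n k r n' t s d D β h h' w₀ M : ℕ} {A G : Type}
    [DecidableEq A] [Fintype A] [DecidableEq G] [Fintype G] [AddCommGroup G]
    (C : GCircuit (Fin m × Fin n × Bool) s M) (σ : Fin m × Fin n × Bool → Bool)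
    (inc : Fin m × Fin n × Bool → Inp (VL k r A G)) (C' : CktG (VL k r A G) s d M)
    (hC' : ∀ y g, (C'.val y g = true ↔ C.Holds (enc σ inc y) g))
    (e : Fin k → Fin r → Fin k) (f : Fin k → Fin t → Fin n') (u₀ : Fin k → G) (hE : Expd e β h)
    (hh : 1 ≤ h) (hDh : D * h ≤ h') (hS : Surj G f h') {p q : ℝ} (hw₀ : 1 ≤ w₀)
    (hp : 0 < p) (hp1 : p ≤ 1 / 2) (hq : 0 < q) (hq1 : q ≤ 1 / 2) (hwq : 64 * ((M : ℝ) + 1) * w₀ * q ≤ p)
    (hA : 1 ≤ Fintype.card A) :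
    ∑ x : Fin k → A, ∑ z : VL k r A G → Bool, wz p z *
      ind (¬ FooledG C D (fun b : Fin n' → G => enc σ inc (yL e x (lin f b) z))
        (fun b => enc σ inc (yL e x (u₀ + lin f b) z))) ≤
    (Fintype.card A : ℝ) ^ k * HLG k (Fintype.card A) (Fintype.card G) s w₀ β h d M q := by
  set Bad : (Fin k → A) → (VL k r A G → Bool) → ℝ := fun x z =>
    ind (¬ FooledG C D (fun b : Fin n' → G => enc σ inc (yL e x (lin f b) z))
      (fun b => enc σ inc (yL e x (u₀ + lin f b) z))) with hBad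
  have hWn : ∀ R : Fin d → PA (VL k r A G), 0 ≤ Wt q p R := fun R =>
    Wt_nonneg hq.le (by linarith) hp.le (by linarith) R
  have hzn : ∀ z : VL k r A G → Bool, 0 ≤ wz p z := fun z =>
    Pool.Agent.H81.AC.wz_nonneg hp.le (by linarith) z
  have h3 : ∑ x : Fin k → A, ∑ z : VL k r A G → Bool, wz p z * Bad x z =
      ∑ x : Fin k → A, ∑ R : Fin d → PA (VL k r A G), ∑ z : VL k r A G → Bool,
          Wt q p R * wz p z * Bad x (fun v => (fd R d v).getD (z v)) :=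
    Finset.sum_congr rfl (fun x _ => (Pool.Agent.H90.AC.PUSH _ d q p (fun z => Bad x z)).symm)
  have h4 : ∑ x : Fin k → A, ∑ R : Fin d → PA (VL k r A G), ∑ z : VL k r A G → Bool,
          Wt q p R * wz p z * Bad x (fun v => (fd R d v).getD (z v)) ≤
      ∑ x : Fin k → A, ∑ R : Fin d → PA (VL k r A G),
        Wt q p R * ind (¬ GoodLG C' e x R β h) := by
    refine Finset.sum_le_sum (fun x _ => Finset.sum_le_sum (fun R _ => ?_))
    have h5 : ∀ z : VL k r A G → Bool,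
        Wt q p R * wz p z * Bad x (fun v => (fd R d v).getD (z v)) ≤
        Wt q p R * ind (¬ GoodLG C' e x R β h) * wz p z := by
      intro z
      have h6 : Bad x (fun v => (fd R d v).getD (z v)) ≤ ind (¬ GoodLG C' e x R β h) := by
        apply ind_mono
        intro hnf hG
        exact hnf (fooled_of_good hJH hJS C σ inc C' hC' e f x R z u₀ hE hh hDh hS hG)
      calc Wt q p R * wz p z * Bad x (fun v => (fd R d v).getD (z v))
          ≤ Wt q p R * wz p z * ind (¬ GoodLG C' e x R β h) :=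
            mul_le_mul_of_nonneg_left h6 (mul_nonneg (hWn R) (hzn z))
        _ = _ := by ring
    refine (Finset.sum_le_sum (fun z _ => h5 z)).trans (le_of_eq ?_)
    rw [← Finset.mul_sum, Pool.Agent.H81.AC.sum_wz, mul_one]
  rw [h3]
  exact h4.trans (ublg C' w₀ β h e hw₀ hp hp1 hq hq1 hwq hA)

theorem star_core (hJH : T_JH) (hJS : T_JS) (hSURJ : T_SURJ) (hUNX : T_UNX) (hCOV : T_COV)
    (hGZP : T_GZP) (hSEM : T_SEM) (hENS : T_ENS) (hPARG : T_PARGT) (t : ℕ) (ht : 2 ≤ t) (ht3 : t ≤ 3)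
    (ε : ℝ) (hε : 0 < ε) (hε1 : ε ≤ 1) : ∃ c : ℕ, ∀ᶠ n : ℕ in atTop, ∀ d D w m M : ℕ, 1 ≤ d →
    c * (d + D) * Nat.log 2 n ≤ w → w < n → n * 2 ^ w ≤ m → M ^ (c * (d + D)) ≤ 2 ^ w →
    ∃ (Ω B : Type) (_ : Fintype Ω) (_ : Fintype B) (μ : Ω → ℝ)
      (S U : Ω → B → Fin m × Fin n × Bool → Bool), (∀ ω, 0 ≤ μ ω) ∧ ∑ ω, μ ω = 1 ∧
      (∃ j, Fintype.card B = t ^ j) ∧
      (∀ ω b, KCNF w (S ω b) ∧ Satisfiable (S ω b) ∧ KCNF w (U ω b) ∧ Far ε w (U ω b)) ∧
      ∀ (s : ℕ) (C : GCircuit (Fin m × Fin n × Bool) s M), C.DepthLE d →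
        ∑ ω, μ ω * ind (¬ FooledG C D (S ω) (U ω)) ≤ s * 2 ^ (-((1 - ε) * n)) := by
  classical
  haveI : NeZero t := ⟨by omega⟩
  set θ : ℝ := ε / 3 with hθdef
  have hθ : 0 < θ := by positivity
  have hθ1 : θ ≤ 1 / 3 := by rw [hθdef]; linarith
  obtain ⟨κ, hκ, K₀, hK⟩ := hUNX (θ / 2) (by positivity) (by linarith)
  obtain ⟨c₀, hc₀, hr⟩ := hgu_t (1 - ε / 4) (by linarith) (by linarith)
  set a : ℕ := ⌈2 / θ⌉₊ with ha
  have ha2 : 2 / θ ≤ a := Nat.le_ceil _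
  obtain ⟨c, hc⟩ := hPARG ε θ κ c₀ (t ^ a) (2 * a) a K₀ hε hε1 hθ (by linarith) hκ hc₀
    (Nat.one_le_pow _ _ (by omega)) (by rwa [div_le_iff₀ hθ] at ha2)
  refine ⟨c, ?_⟩
  filter_upwards [hc] with n hn d D w m M hd hw hwn hm hM
  obtain ⟨k, L, w₀, r, δ, p, q, hK₀, hk, hkθ, hkL, hδ, hδr, hrL, hh1, hDh, hw₀, hp, hp1, hq, hq1, hwq,
    hpk, hHL⟩ := hn d D w M hd hw hwn hM
  obtain ⟨n', f, hn'k, hn'θ, hUN⟩ := hK k hK₀
  obtain ⟨G, iG1, iG2, iG3, hcardG⟩ : ∃ (G : Type) (_ : AddCommGroup G) (_ : Fintype G)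
      (_ : DecidableEq G), Fintype.card G = t ^ a :=
    ⟨Fin a → ZMod t, inferInstance, inferInstance, inferInstance, by simp [ZMod.card]⟩
  have hcardA : Fintype.card (Fin L → Bool) = 2 ^ L := by simp
  obtain ⟨e, he⟩ := hr δ r k hδ hδr hk
  have hS : Surj G f ⌊κ * k⌋₊ := hSURJ k n' 4 ⌊κ * k⌋₊ G f hUN
  obtain ⟨u₀, hu₀⟩ := hCOV k n' 4 ⌊θ * k⌋₊ G f (by
    rw [hcardG]
    exact cov_num hθ ht ha2 hn'θ)
  have hwpos : 1 ≤ w := by
    have h1 : 1 ≤ (r + 1) * L + 4 * (2 * a) := by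
      have : 0 < a := by
        rw [ha, Nat.ceil_pos]
        positivity
      omega
    exact h1.trans hrL
  obtain ⟨σ, inc, hK1, hK2, hK3⟩ := hENS k r L (2 * a) n' n m w G e f hk hwpos (by
      rw [hcardG, pow_mul]
      exact Nat.pow_le_pow_left (by omega) a) (by
      have : n' * (2 * a) ≤ k * (2 * a) := Nat.mul_le_mul_right _ hn'k
      have h2 : k * (L + 2 * a) = k * L + k * (2 * a) := Nat.mul_add _ _ _
      omega) hrL hwn
  -- the normalisation
  set Z : ℝ := ∑ x : Fin k → Fin L → Bool, ∑ z : VL k r (Fin L → Bool) G → Bool,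
    ind (GZ e f ⌊θ * k⌋₊ z) * wz p z with hZ
  have hzn : ∀ z : VL k r (Fin L → Bool) G → Bool, 0 ≤ wz p z := fun z =>
    Pool.Agent.H81.AC.wz_nonneg hp.le (by linarith) z
  have hN0 : (0 : ℝ) < (2 ^ L : ℝ) ^ k := by positivity
  have hZ1 : (2 ^ L : ℝ) ^ k * (1 / 2) ≤ Z := by
    have h1 : ∀ x : Fin k → Fin L → Bool, (1 / 2 : ℝ) ≤
        ∑ z : VL k r (Fin L → Bool) G → Bool, ind (GZ e f ⌊θ * k⌋₊ z) * wz p z := by
      intro x
      have h2 := hGZP k r n' 4 ⌊θ * k⌋₊ (Fin L → Bool) G e f p hp.le (by linarith)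
      have h3 : ∀ z : VL k r (Fin L → Bool) G → Bool, ind (GZ e f ⌊θ * k⌋₊ z) * wz p z =
          wz p z - wz p z * ind (¬ GZ e f ⌊θ * k⌋₊ z) := by
        intro z
        by_cases hU : GZ e f ⌊θ * k⌋₊ z
        · rw [ind_true hU, ind_false (not_not.2 hU)]; ring
        · rw [ind_false hU, ind_true hU]; ring
      simp_rw [h3]
      rw [Finset.sum_sub_distrib, Pool.Agent.H81.AC.sum_wz]
      have h4 : (Fintype.card (Fin L → Bool) : ℝ) ^ k * (Fintype.card G : ℝ) ^ n' * 2 ^ k *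
          p ^ (⌊θ * k⌋₊ + 1) ≤ 1 / 2 := by
        refine le_trans ?_ hpk
        rw [hcardG, hcardA]
        push_cast
        have h5 : ((t : ℝ) ^ a) ^ n' ≤ ((t : ℝ) ^ a) ^ k := by
          apply pow_le_pow_right₀ _ hn'k
          apply one_le_pow₀
          have : (2 : ℝ) ≤ t := by exact_mod_cast ht
          linarith
        gcongr
      linarith
    calc (2 ^ L : ℝ) ^ k * (1 / 2) = ∑ _x : Fin k → Fin L → Bool, (1 / 2 : ℝ) := by
          rw [Finset.sum_const, card_univ, Fintype.card_fun, hcardA, Fintype.card_fin, nsmul_eq_mul]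
          push_cast
          ring
      _ ≤ Z := Finset.sum_le_sum (fun x _ => h1 x)
  have hZ0 : 0 < Z := lt_of_lt_of_le (by positivity) hZ1
  refine ⟨{i : (Fin k → Fin L → Bool) × (VL k r (Fin L → Bool) G → Bool) // GZ e f ⌊θ * k⌋₊ i.2},
    Fin n' → G, inferInstance, inferInstance, fun i => wz p i.1.2 / Z,
    fun i b => enc σ inc (yL e i.1.1 (lin f b) i.1.2),
    fun i b => enc σ inc (yL e i.1.1 (u₀ + lin f b) i.1.2), fun i => div_nonneg (hzn _) hZ0.le, ?_, ?_,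
    ?_, ?_⟩
  · rw [sum_omega (fun z => GZ e f ⌊θ * k⌋₊ z) (fun i => wz p i.2 / Z)]
    simp only [← mul_div_assoc, ← Finset.sum_div]
    rw [← hZ, div_self hZ0.ne']
  · refine ⟨a * n', ?_⟩
    rw [Fintype.card_fun, hcardG, Fintype.card_fin, pow_mul]
  · rintro ⟨⟨x, z⟩, hz⟩ b
    have hsem := hSEM k r n' 4 (Fin L → Bool) G e f x z b
    refine ⟨hK1 _, hK2 _ ⟨x, b, hsem.1⟩, hK1 _, ?_⟩
    intro α
    have h1 := hK3 _ _ (hsem.2 _ _ u₀ hz hu₀) α
    have h2 := far_num (m := m) (n := n) (k := k) (w := w) hθ hθ1 hk hkθ hm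
    have h3 : (1 - 3 * θ) = 1 - ε := by rw [hθdef]; ring
    rw [h3] at h2
    exact h2.trans (by exact_mod_cast h1)
  · intro s C hC
    obtain ⟨C', hC'⟩ := encg _ (VL k r (Fin L → Bool) G) s d M C σ inc hC
    set Bad : (Fin k → Fin L → Bool) → (VL k r (Fin L → Bool) G → Bool) → ℝ := fun x z =>
      ind (¬ FooledG C D (fun b : Fin n' → G => enc σ inc (yL e x (lin f b) z))
        (fun b => enc σ inc (yL e x (u₀ + lin f b) z))) with hBad
    have h1 : ∑ i : {i : (Fin k → Fin L → Bool) × (VL k r (Fin L → Bool) G → Bool) //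
        GZ e f ⌊θ * k⌋₊ i.2}, wz p i.1.2 / Z * ind (¬ FooledG C D
          (fun b : Fin n' → G => enc σ inc (yL e i.1.1 (lin f b) i.1.2))
          (fun b => enc σ inc (yL e i.1.1 (u₀ + lin f b) i.1.2))) =
        (∑ x : Fin k → Fin L → Bool, ∑ z : VL k r (Fin L → Bool) G → Bool,
          ind (GZ e f ⌊θ * k⌋₊ z) * (wz p z * Bad x z)) / Z := by
      rw [sum_omega (fun z => GZ e f ⌊θ * k⌋₊ z) (fun i => wz p i.2 / Z * Bad i.1 i.2)]
      rw [Finset.sum_div]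
      refine Finset.sum_congr rfl (fun x _ => ?_)
      rw [Finset.sum_div]
      refine Finset.sum_congr rfl (fun z _ => ?_)
      simp only
      ring
    have hgoal : (∑ x : Fin k → Fin L → Bool, ∑ z : VL k r (Fin L → Bool) G → Bool,
          ind (GZ e f ⌊θ * k⌋₊ z) * (wz p z * Bad x z)) / Z ≤ s * 2 ^ (-((1 - ε) * n)) := by
      have hBn : ∀ x z, 0 ≤ Bad x z := fun x z => ind_nonneg _
      have h2 : ∑ x : Fin k → Fin L → Bool, ∑ z : VL k r (Fin L → Bool) G → Bool,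
          ind (GZ e f ⌊θ * k⌋₊ z) * (wz p z * Bad x z) ≤
          ∑ x : Fin k → Fin L → Bool, ∑ z : VL k r (Fin L → Bool) G → Bool, wz p z * Bad x z := by
        refine Finset.sum_le_sum (fun x _ => Finset.sum_le_sum (fun z _ => ?_))
        calc ind (GZ e f ⌊θ * k⌋₊ z) * (wz p z * Bad x z) ≤ 1 * (wz p z * Bad x z) :=
              mul_le_mul_of_nonneg_right (ind_le_one _) (mul_nonneg (hzn z) (hBn x z))
          _ = _ := one_mul _
      have h5 := bad_core hJH hJS C σ inc C' hC' e f u₀ he hh1 hDh hS hw₀ hp hp1 hq hq1 hwq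
        (by rw [hcardA]; exact Nat.one_le_two_pow)
      rw [hcardA, hcardG] at h5
      have h6 := hHL s
      rw [div_le_iff₀ hZ0]
      have h7 : (0 : ℝ) ≤ s * 2 ^ (-((1 - ε) * n)) := by positivity
      calc ∑ x : Fin k → Fin L → Bool, ∑ z : VL k r (Fin L → Bool) G → Bool,
          ind (GZ e f ⌊θ * k⌋₊ z) * (wz p z * Bad x z)
          ≤ ((2 ^ L : ℕ) : ℝ) ^ k * HLG k (2 ^ L) (t ^ a) s w₀ ⌊(1 - ε / 4) * k⌋₊ ⌊δ * k⌋₊ d M q :=
            h2.trans h5
        _ ≤ ((2 ^ L : ℕ) : ℝ) ^ k * (s * 2 ^ (-((1 - ε) * n)) / 2) :=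
            mul_le_mul_of_nonneg_left h6 (by positivity)
        _ = s * 2 ^ (-((1 - ε) * n)) * ((2 ^ L : ℝ) ^ k * (1 / 2)) := by push_cast; ring
        _ ≤ s * 2 ^ (-((1 - ε) * n)) * Z := mul_le_mul_of_nonneg_left hZ1 h7
    refine le_trans (le_of_eq ?_) hgoal
    exact h1

/-- STARG: families with equal sums. -/
def T_STARG : Prop := ∀ ε : ℝ, 0 < ε → ε ≤ 1 → ∃ c : ℕ, ∀ᶠ n : ℕ in atTop,
  ∀ d D w m M : ℕ, 1 ≤ d → c * (d + D) * Nat.log 2 n ≤ w → w < n → n * 2 ^ w ≤ m →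
  M ^ (c * (d + D)) ≤ 2 ^ w → ∀ t : ℕ, (t = 2 ∨ t = 3) →
  ∃ (Ω B : Type) (_ : Fintype Ω) (_ : Fintype B) (μ : Ω → ℝ)
    (S U : Ω → B → Fin m × Fin n × Bool → Bool), (∀ ω, 0 ≤ μ ω) ∧ ∑ ω, μ ω = 1 ∧
    (∃ j, Fintype.card B = t ^ j) ∧
    (∀ ω b, KCNF w (S ω b) ∧ Satisfiable (S ω b) ∧ KCNF w (U ω b) ∧ Far ε w (U ω b)) ∧
    ∀ (s : ℕ) (C : GCircuit (Fin m × Fin n × Bool) s M), C.DepthLE d →
      ∑ ω, μ ω * ind (¬ FooledG C D (S ω) (U ω)) ≤ s * 2 ^ (-((1 - ε) * n))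

theorem pow_max_le {M c c' u w : ℕ} (hc : c ≤ c') (h : M ^ (c' * u) ≤ 2 ^ w) : M ^ (c * u) ≤ 2 ^ w := by
  rcases Nat.eq_zero_or_pos M with rfl | hM
  · rcases Nat.eq_zero_or_pos (c * u) with h0 | h0
    · rw [h0, pow_zero]
      exact Nat.one_le_two_pow
    · rw [zero_pow (by omega)]
      exact Nat.zero_le _
  · exact (Nat.pow_le_pow_right hM (Nat.mul_le_mul_right _ hc)).trans h

theorem starg_t (hJH : T_JH) (hJS : T_JS) (hSURJ : T_SURJ) (hUNX : T_UNX) (hCOV : T_COV)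
    (hGZP : T_GZP) (hSEM : T_SEM) (hENS : T_ENS) (hPARG : T_PARGT) : T_STARG := by
  intro ε hε hε1
  obtain ⟨c2, h2⟩ := star_core hJH hJS hSURJ hUNX hCOV hGZP hSEM hENS hPARG 2 le_rfl (by norm_num) ε hε hε1
  obtain ⟨c3, h3⟩ := star_core hJH hJS hSURJ hUNX hCOV hGZP hSEM hENS hPARG 3 (by norm_num) le_rfl ε hε hε1
  refine ⟨max c2 c3, ?_⟩
  filter_upwards [h2, h3] with n hn2 hn3 d D w m M hd hw hwn hm hM t ht
  have hw2 : c2 * (d + D) * Nat.log 2 n ≤ w := le_trans (by gcongr; exact le_max_left _ _) hw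
  have hw3 : c3 * (d + D) * Nat.log 2 n ≤ w := le_trans (by gcongr; exact le_max_right _ _) hw
  rcases ht with rfl | rfl
  · exact hn2 d D w m M hd hw2 hwn hm (pow_max_le (le_max_left _ _) hM)
  · exact hn3 d D w m M hd hw3 hwn hm (pow_max_le (le_max_right _ _) hM)

end Pool.Agent.H68.GQ
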