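import Pool.Agent.H68.GQ.Base

/-!
# General gates: parameters and encoding
-/

namespace Pool.Agent.H68.GQ

open Finset Filter Pool.Agent.H68.AC Pool.Agent.H75.QG Pool.Agent.H68.GP

/-- PARGM: the parameters for general gates. -/
def T_PARGM : Prop := ∀ (ε θ κ c₀ : ℝ) (Q a' C' K₀ C : ℕ), 0 < ε → ε ≤ 1 → 0 < θ → θ ≤ 1 → 0 < κ →
  0 < c₀ → 1 ≤ Q → 2 ≤ C' * θ → ∃ c : ℕ, ∀ᶠ n : ℕ in atTop, ∀ d D : ℕ, 1 ≤ d → (d + D) ^ 2 ≤ n →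
  ∃ (k w r : ℕ) (δ p q : ℝ), K₀ ≤ k ∧ 1 ≤ k ∧ (k : ℝ) ≤ θ * n ∧ k * (Nat.log 2 n + a') + 1 ≤ n ∧
    0 < δ ∧ c₀ ≤ δ * r ∧ (r + 1) * Nat.log 2 n + 4 * a' ≤ c * (d + D) * Nat.log 2 n ∧
    1 ≤ ⌊δ * k⌋₊ ∧ D * ⌊δ * k⌋₊ ≤ ⌊κ * k⌋₊ ∧ 1 ≤ w ∧ 0 < p ∧ p ≤ 1 / 2 ∧ 0 < q ∧ q ≤ 1 / 2 ∧
    64 * (((n ^ C : ℕ) : ℝ) + 1) * w * q ≤ p ∧
    (2 ^ Nat.log 2 n : ℝ) ^ k * Q ^ k * 2 ^ k * p ^ (⌊θ * k⌋₊ + 1) ≤ 1 / 2 ∧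
    ∀ s : ℕ, HLG k (2 ^ Nat.log 2 n) Q s w ⌊(1 - ε / 4) * k⌋₊ ⌊δ * k⌋₊ d (n ^ C) q ≤
      s * 2 ^ (-((1 - ε) * n)) / 2

/-- PARGT: the parameters for general gates; the width `w` is free and the block length `ℓ` is about
`w / (d + D)`. -/
def T_PARGT : Prop := ∀ (ε θ κ c₀ : ℝ) (Q a' C' K₀ : ℕ), 0 < ε → ε ≤ 1 → 0 < θ → θ ≤ 1 → 0 < κ →
  0 < c₀ → 1 ≤ Q → 2 ≤ C' * θ → ∃ c : ℕ, ∀ᶠ n : ℕ in atTop, ∀ d D w t : ℕ, 1 ≤ d →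
  c * (d + D) * Nat.log 2 n ≤ w → w < n → t ^ (c * (d + D)) ≤ 2 ^ w →
  ∃ (k ℓ w₀ r : ℕ) (δ p q : ℝ), K₀ ≤ k ∧ 1 ≤ k ∧ (k : ℝ) ≤ θ * n ∧ k * (ℓ + a') + 1 ≤ n ∧
    0 < δ ∧ c₀ ≤ δ * r ∧ (r + 1) * ℓ + 4 * a' ≤ w ∧
    1 ≤ ⌊δ * k⌋₊ ∧ D * ⌊δ * k⌋₊ ≤ ⌊κ * k⌋₊ ∧ 1 ≤ w₀ ∧ 0 < p ∧ p ≤ 1 / 2 ∧ 0 < q ∧ q ≤ 1 / 2 ∧
    64 * ((t : ℝ) + 1) * w₀ * q ≤ p ∧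
    (2 ^ ℓ : ℝ) ^ k * Q ^ k * 2 ^ k * p ^ (⌊θ * k⌋₊ + 1) ≤ 1 / 2 ∧
    ∀ s : ℕ, HLG k (2 ^ ℓ) Q s w₀ ⌊(1 - ε / 4) * k⌋₊ ⌊δ * k⌋₊ d t q ≤
      s * 2 ^ (-((1 - ε) * n)) / 2

/-- ENCG: conversion of circuits. -/
def T_ENCG : Prop := ∀ (I V : Type) [Fintype I] (s d M : ℕ) (C : GCircuit I s M) (σ : I → Bool)
  (inc : I → Inp V), C.DepthLE d → ∃ C' : CktG V s d M, ∀ y g,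
    (C'.val y g = true ↔ C.Holds (enc σ inc y) g)

end Pool.Agent.H68.GQ
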